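import Pool.Agent.Lib_MP_852c2d_lc.Rank

/-!
# The counting argument
-/

namespace Pool.Agent.Lib_MP_852c2d_lc

attribute [-instance] Pi.instLTLexForall

/-- independent blocks: the Kraft sums multiply -/
lemma kraft {B T : ℕ} {Λ : Type*} [Fintype Λ] [DecidableEq Λ] (F : Finset (Fin B → Fin T))
    (lab : Fin B → (Fin B → Fin T) → Λ) (w : Fin B → Λ → ℝ) (s : Fin B → (Fin B → Fin T) → ℕ)
    (φ : Fin B → Λ → ℕ) (hdet : ∀ J ∈ F, ∀ β, (J β : ℕ) = φ β (lab β J))
    (hw0 : ∀ β l, 0 ≤ w β l) (hw1 : ∀ β, ∑ l, w β l ≤ 1)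
    (hs : ∀ J ∈ F, ∀ β, (1 / 2 : ℝ) ^ (s β J) ≤ w β (lab β J)) :
    ∑ J ∈ F, (1 / 2 : ℝ) ^ (∑ β, s β J) ≤ 1 := by
  have h1 : ∀ J ∈ F, (1 / 2 : ℝ) ^ (∑ β, s β J) ≤ ∏ β, w β (lab β J) := by
    intro J hJ
    rw [← Finset.prod_pow_eq_pow_sum]
    exact Finset.prod_le_prod (fun _ _ => by positivity) fun β _ => hs J hJ β
  refine (Finset.sum_le_sum h1).trans ?_
  have hinj : Set.InjOn (fun J : Fin B → Fin T => fun β => lab β J) (F : Set (Fin B → Fin T)) := by
    intro J hJ J' hJ' h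
    funext β
    apply Fin.ext
    rw [hdet J hJ β, hdet J' hJ' β]
    have := congrFun h β
    simp only at this
    rw [this]
  have h2 : ∑ J ∈ F, ∏ β, w β (lab β J) =
      ∑ l ∈ F.image (fun J => fun β => lab β J), ∏ β, w β (l β) := by
    rw [Finset.sum_image hinj]
  rw [h2]
  calc ∑ l ∈ F.image (fun J => fun β => lab β J), ∏ β, w β (l β)
      ≤ ∑ l : Fin B → Λ, ∏ β, w β (l β) :=
        Finset.sum_le_sum_of_subset_of_nonneg (Finset.subset_univ _)
          fun _ _ _ => Finset.prod_nonneg fun β _ => hw0 β _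
    _ = ∏ β, ∑ l, w β l := by
        rw [Finset.prod_univ_sum, Fintype.piFinset_univ]
    _ ≤ 1 := Finset.prod_le_one (fun β _ => Finset.sum_nonneg fun l _ => hw0 β l) fun β _ => hw1 β

/-- a Kraft sum at most one forces a large average length -/
lemma entropy {α : Type*} (F : Finset α) (s : α → ℕ) (h : ∑ J ∈ F, (1 / 2 : ℝ) ^ (s J) ≤ 1) :
    (F.card : ℝ) * Real.logb 2 F.card ≤ ∑ J ∈ F, (s J : ℝ) := by
  rcases F.eq_empty_or_nonempty with rfl | hF
  · simp
  have hN : (0 : ℝ) < F.card := by exact_mod_cast hF.card_pos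
  have hl2 : 0 < Real.log 2 := Real.log_pos (by norm_num)
  have h1 : ∀ J ∈ F, 1 - ((s J : ℝ) * Real.log 2 - Real.log F.card) ≤
      F.card * (1 / 2 : ℝ) ^ (s J) := by
    intro J _
    have h2 := Real.add_one_le_exp (-((s J : ℝ) * Real.log 2 - Real.log F.card))
    have h3 : Real.exp (-((s J : ℝ) * Real.log 2 - Real.log F.card)) =
        F.card * (1 / 2 : ℝ) ^ (s J) := by
      rw [neg_sub, Real.exp_sub, Real.exp_log hN, mul_comm (s J : ℝ), Real.exp_mul,
        Real.exp_log (by norm_num), Real.rpow_natCast, one_div, inv_pow, div_eq_mul_inv]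
    rw [h3] at h2
    linarith
  have h4 := Finset.sum_le_sum h1
  rw [← Finset.mul_sum, Finset.sum_sub_distrib, Finset.sum_sub_distrib, ← Finset.sum_mul] at h4
  simp only [Finset.sum_const, nsmul_eq_mul, mul_one] at h4
  have h5 : (F.card : ℝ) * ∑ J ∈ F, (1 / 2 : ℝ) ^ (s J) ≤ F.card := by
    nlinarith
  have h6 : (F.card : ℝ) * Real.log F.card ≤ (∑ J ∈ F, (s J : ℝ)) * Real.log 2 := by linarith
  rw [Real.logb, ← mul_div_assoc, div_le_iff₀ hl2]
  exact h6

section
variable {n B T : ℕ}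

/-- the circuit sorts the symbolic input `J` -/
def SymSorts (C : Circuit n) (J : Fin B → Fin T) : Prop :=
  ∃ σ : Fin (n * n) ≃ Fin n × Fin n, (StrictMono fun k => run C J (C.out k)) ∧
    ∀ k, run C J (C.out k) = ss J (σ k)

theorem core (hBn : B = n / 2) (hT : T ≤ n) (C : Circuit n) (F : Finset (Fin B → Fin T))
    (hF : F.Nonempty) (h : ∀ J ∈ F, SymSorts C J) :
    ((2 * n - T - T : ℕ) : ℝ) * Real.logb 2 F.card ≤ C.minMax := by
  classical
  haveI : Nonempty (Fin (n * n) ≃ Fin n × Fin n) := ⟨finProdFinEquiv.symm⟩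
  choose! σ hs hσ using h
  choose P W hW0 hW1 H using fun k => (info B T C (C.out k)).track
  have hsingle : ∀ J ∈ F, ∀ k, Single J (σ J k) (run C J (C.out k)) := by
    intro J hJ k
    rw [hσ J hJ k]; exact ss_single J _
  have hrk : ∀ J ∈ F, ∀ k, rk J (σ J k) = k := fun J hJ k =>
    rank_pos _ (hs J hJ) (σ J) J (hσ J hJ) k
  -- disjointness of the paths
  have hdis : ∀ J ∈ F, ∑ k, (P k J).card ≤ C.minMax := by
    intro J hJ
    have hd : ((Finset.univ : Finset (Fin (n * n))) : Set (Fin (n * n))).PairwiseDisjoint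
        (fun k => P k J) := by
      intro k _ k' _ hkk'
      rw [Function.onFun, Finset.disjoint_left]
      intro g hg hg'
      have h1 := ((H k J _ (hsingle J hJ k)).1 g hg).2.2
      have h2 := ((H k' J _ (hsingle J hJ k')).1 g hg').2.2
      exact hkk' ((σ J).injective (label_of_co h1 h2 rfl rfl rfl rfl rfl))
    rw [← Finset.card_biUnion hd, Circuit.minMax]
    apply Finset.card_le_card
    intro g hg
    obtain ⟨k, -, hk⟩ := Finset.mem_biUnion.mp hg
    simp only [Finset.mem_filter, Finset.mem_univ, true_and]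
    exact ((H k J _ (hsingle J hJ k)).1 g hk).2.1
  -- positions
  have hpos : ∀ r ∈ Finset.Ico T (2 * n - T), ∀ β : Fin B, 2 * (β : ℕ) * n + r < n * n := by
    intro r hr β
    have hr := Finset.mem_Ico.mp hr
    have hβ := β.2
    have h1 : 2 * (β : ℕ) + 2 ≤ n := by omega
    have h2 : (2 * (β : ℕ) + 2) * n ≤ n * n := Nat.mul_le_mul_right n h1
    have h3 : (2 * (β : ℕ) + 2) * n = 2 * (β : ℕ) * n + 2 * n := by ring
    omega
  let cp : ℕ → (Fin B → Fin T) → ℕ := fun m J => if hm : m < n * n then (P ⟨m, hm⟩ J).card else 0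
  have hr1 : ∀ r ∈ Finset.Ico T (2 * n - T), (F.card : ℝ) * Real.logb 2 F.card ≤
      ∑ J ∈ F, ((∑ β : Fin B, cp (2 * (β : ℕ) * n + r) J : ℕ) : ℝ) := by
    intro r hr
    apply entropy
    have hr' := Finset.mem_Ico.mp hr
    refine kraft F (fun β J => σ J ⟨2 * (β : ℕ) * n + r, hpos r hr β⟩)
      (fun β => W ⟨2 * (β : ℕ) * n + r, hpos r hr β⟩)
      (fun β J => cp (2 * (β : ℕ) * n + r) J)
      (fun β l => if (l.1 : ℕ) % 2 = 0 then 2 * (l.2 : ℕ) - r else r - 2 * (l.2 : ℕ) - 1)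
      (fun J hJ β => ?_) (fun β l => hW0 _ l) (fun β => hW1 _) (fun J hJ β => ?_)
    · exact shift_of_rank hBn hT J _ β r hr'.1 hr'.2 (hrk J hJ _)
    · have : cp (2 * (β : ℕ) * n + r) J = (P ⟨2 * (β : ℕ) * n + r, hpos r hr β⟩ J).card := by
        simp only [cp, dif_pos (hpos r hr β)]
      rw [this]
      exact (H _ J _ (hsingle J hJ _)).2
  have hr2 : ∀ J ∈ F, ∑ r ∈ Finset.Ico T (2 * n - T), ∑ β : Fin B, cp (2 * (β : ℕ) * n + r) J
      ≤ C.minMax := by
    intro J hJ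
    refine le_trans ?_ (hdis J hJ)
    have e1 : ∑ k, (P k J).card = ∑ m ∈ Finset.range (n * n), cp m J := by
      rw [Finset.sum_range]
      refine Finset.sum_congr rfl fun k _ => ?_
      simp only [cp, dif_pos k.2]
    rw [e1, ← Finset.sum_product']
    have hinj : Set.InjOn (fun p : ℕ × Fin B => 2 * (p.2 : ℕ) * n + p.1)
        ((Finset.Ico T (2 * n - T) ×ˢ (Finset.univ : Finset (Fin B)) : Finset (ℕ × Fin B)) :
          Set (ℕ × Fin B)) := by
      intro p hp q hq hpq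
      have hp' := Finset.mem_Ico.mp (Finset.mem_product.mp hp).1
      have hq' := Finset.mem_Ico.mp (Finset.mem_product.mp hq).1
      have hpq : 2 * (p.2 : ℕ) * n + p.1 = 2 * (q.2 : ℕ) * n + q.1 := hpq
      have h2 : (p.2 : ℕ) = q.2 := by
        rcases lt_trichotomy (p.2 : ℕ) q.2 with h' | h' | h'
        · exfalso
          have : 2 * (p.2 : ℕ) * n + 2 * n ≤ 2 * (q.2 : ℕ) * n := by
            have : (p.2 : ℕ) + 1 ≤ q.2 := h'
            nlinarith
          omega
        · exact h'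
        · exfalso
          have : 2 * (q.2 : ℕ) * n + 2 * n ≤ 2 * (p.2 : ℕ) * n := by
            have : (q.2 : ℕ) + 1 ≤ p.2 := h'
            nlinarith
          omega
      have h1 : p.1 = q.1 := by
        rw [h2] at hpq
        omega
      exact Prod.ext h1 (Fin.ext h2)
    rw [← Finset.sum_image (f := fun m => cp m J) hinj]
    apply Finset.sum_le_sum_of_subset
    intro m hm
    obtain ⟨p, hp, rfl⟩ := Finset.mem_image.mp hm
    exact Finset.mem_range.mpr (hpos p.1 (Finset.mem_product.mp hp).1 p.2)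
  -- conclusion
  have hN : (0 : ℝ) < F.card := by exact_mod_cast hF.card_pos
  have h3 := Finset.sum_le_sum hr1
  rw [Finset.sum_comm] at h3
  have h4 : ∑ J ∈ F, ∑ r ∈ Finset.Ico T (2 * n - T),
      ((∑ β : Fin B, cp (2 * (β : ℕ) * n + r) J : ℕ) : ℝ) ≤ ∑ J ∈ F, (C.minMax : ℝ) := by
    apply Finset.sum_le_sum
    intro J hJ
    exact_mod_cast hr2 J hJ
  have h5 := h3.trans h4
  simp only [Finset.sum_const, nsmul_eq_mul, Nat.card_Ico] at h5
  have h6 : (F.card : ℝ) * (((2 * n - T - T : ℕ) : ℝ) * Real.logb 2 F.card) ≤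
      F.card * C.minMax := by
    calc (F.card : ℝ) * (((2 * n - T - T : ℕ) : ℝ) * Real.logb 2 F.card)
        = ((2 * n - T - T : ℕ) : ℝ) * ((F.card : ℝ) * Real.logb 2 F.card) := by ring
      _ ≤ _ := h5
  exact le_of_mul_le_mul_left h6 hN

end

end Pool.Agent.Lib_MP_852c2d_lc
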