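import Mathlib

/-!
# Monotone circuits (addition, nonnegative scaling, minimum, maximum) for the sums `x i + y j`
-/

namespace Pool.Agent.Lib_MP_852c2d_lc

/-- The gate at position `t` of a circuit on the inputs `x 0, ..., x (n-1), y 0, ..., y (n-1)`:
an input, a real constant, the sum, the minimum or the maximum of the values computed at two
earlier positions `a, b < t`, or the value at an earlier position multiplied by a constant
`c ≥ 0`. -/
inductive Gate (n t : ℕ)
  | x (i : Fin n) : Gate n t
  | y (j : Fin n) : Gate n t
  | const (c : ℝ) : Gate n t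
  | scale (c : NNReal) (a : Fin t) : Gate n t
  | add (a b : Fin t) : Gate n t
  | min (a b : Fin t) : Gate n t
  | max (a b : Fin t) : Gate n t

/-- Is the gate a minimum or a maximum gate? -/
def Gate.isMinMax {n t : ℕ} : Gate n t → Prop
  | .min _ _ => True
  | .max _ _ => True
  | _ => False

/-- A circuit: `size` gates, each reading earlier ones, and a list of `n * n` designated
output positions. Every gate may be read arbitrarily often. -/
structure Circuit (n : ℕ) where
  size : ℕ
  gate : (t : Fin size) → Gate n t
  out : Fin (n * n) → Fin size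

/-- Number of minimum and maximum gates. -/
noncomputable def Circuit.minMax {n : ℕ} (C : Circuit n) : ℕ := by
  classical exact (Finset.univ.filter fun t => (C.gate t).isMinMax).card

/-- The value computed at position `t`, for inputs `x, y` with values in a linearly ordered type
`α` with addition and multiplication by real scalars; the constant `c` is read as `κ c`.
For real inputs one takes `α = ℝ` and `κ = id`. -/
noncomputable def Circuit.val {n : ℕ} (C : Circuit n) {α : Type*} [Add α] [SMul ℝ α] [LinearOrder α]
    (κ : ℝ → α) (x y : Fin n → α) (t : Fin C.size) : α :=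
  match C.gate t with
  | .x i => x i
  | .y j => y j
  | .const c => κ c
  | .scale c a => (c : ℝ) • C.val κ x y ⟨a, a.2.trans t.2⟩
  | .add a b => C.val κ x y ⟨a, a.2.trans t.2⟩ + C.val κ x y ⟨b, b.2.trans t.2⟩
  | .min a b => Min.min (C.val κ x y ⟨a, a.2.trans t.2⟩) (C.val κ x y ⟨b, b.2.trans t.2⟩)
  | .max a b => Max.max (C.val κ x y ⟨a, a.2.trans t.2⟩) (C.val κ x y ⟨b, b.2.trans t.2⟩)
termination_by t.1
decreasing_by all_goals simp

/-- The circuit sorts `X + Y` on the real inputs `x, y`: its outputs are nondecreasing, and they
are the `n * n` sums `x i + y j`, each with the right multiplicity. -/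
def Circuit.Sorts {n : ℕ} (C : Circuit n) (x y : Fin n → ℝ) : Prop :=
  (Monotone fun k => C.val id x y (C.out k)) ∧
    ∃ σ : Fin (n * n) ≃ Fin n × Fin n, ∀ k, C.val id x y (C.out k) = x (σ k).1 + y (σ k).2

/-- For any two strictly increasing integer sequences `x, y` of length `n` whose `n * n` sums are
distinct, at least one of the circuits `C a` sorts `X + Y`. -/
def SortsIntegers {n m : ℕ} (C : Fin m → Circuit n) : Prop :=
  ∀ x y : Fin n → ℤ, StrictMono x → StrictMono y →
    (Function.Injective fun p : Fin n × Fin n => x p.1 + y p.2) →
      ∃ a, (C a).Sorts (fun i => (x i : ℝ)) (fun j => (y j : ℝ))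

end Pool.Agent.Lib_MP_852c2d_lc
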