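import Pool.Agent.Lib_MP_852c2d_lc.Defs

/-!
# Lexicographic values and their evaluation at a large real number
-/

open Filter

namespace Pool.Agent.Lib_MP_852c2d_lc

attribute [-instance] Pi.instLTLexForall

/-- symbolic values: coefficients of `K^7, ..., K, 1`, compared lexicographically -/
abbrev Gm := Lex (Fin 8 → ℝ)

/-- build a symbolic value -/
def vec (v : Fin 8 → ℝ) : Gm := toLex v

/-- coordinate of a symbolic value -/
def co (f : Gm) (i : Fin 8) : ℝ := ofLex f i

@[simp] lemma co_vec (v : Fin 8 → ℝ) (i : Fin 8) : co (vec v) i = v i := rfl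
@[simp] lemma co_add (f g : Gm) (i : Fin 8) : co (f + g) i = co f i + co g i := rfl
@[simp] lemma co_smul (c : ℝ) (f : Gm) (i : Fin 8) : co (c • f) i = c * co f i := rfl

lemma co_ext {f g : Gm} (h : ∀ i, co f i = co g i) : f = g := ofLex.injective (funext h)

lemma lt_iff {f g : Gm} : f < g ↔ ∃ i, (∀ j < i, co f j = co g j) ∧ co f i < co g i := Iff.rfl

/-- evaluation at `K` -/
noncomputable def ev (K : ℝ) (f : Gm) : ℝ := ∑ i : Fin 8, co f i * K ^ (7 - (i : ℕ))

lemma ev_add (K : ℝ) (f g : Gm) : ev K (f + g) = ev K f + ev K g := by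
  simp only [ev, ← Finset.sum_add_distrib, co_add]
  exact Finset.sum_congr rfl fun i _ => by ring

lemma ev_smul (K c : ℝ) (f : Gm) : ev K (c • f) = c * ev K f := by
  simp only [ev, Finset.mul_sum, co_smul]
  exact Finset.sum_congr rfl fun i _ => by ring

lemma ev_vec (K a b c d e f g h : ℝ) : ev K (vec ![a, b, c, d, e, f, g, h]) =
    a * K ^ 7 + b * K ^ 6 + c * K ^ 5 + d * K ^ 4 + e * K ^ 3 + f * K ^ 2 + g * K + h := by
  simp [ev, Fin.sum_univ_succ]
  ring

lemma pos_lead (d : Fin 8 → ℝ) (i : Fin 8) (h0 : ∀ j < i, d j = 0) (hi : 0 < d i) :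
    ∀ᶠ K : ℝ in atTop, 0 < ∑ j : Fin 8, d j * K ^ (7 - (j : ℕ)) := by
  set S := ∑ j, |d j| with hS
  have hS0 : 0 ≤ S := Finset.sum_nonneg fun _ _ => abs_nonneg _
  filter_upwards [eventually_gt_atTop (1 + S / d i)] with K hK
  have hK1 : 1 < K := lt_of_le_of_lt (by have := div_nonneg hS0 hi.le; linarith) hK
  have hK0 : 0 < K := by linarith
  have hSK : S < d i * K := by
    have : S / d i < K := by linarith
    rw [div_lt_iff₀ hi] at this
    linarith
  by_cases h4 : (i : ℕ) = 7
  · have : ∑ j : Fin 8, d j * K ^ (7 - (j : ℕ)) = d i := by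
      rw [Finset.sum_eq_single i]
      · rw [h4]; simp
      · intro j _ hj
        have : j < i := by
          rcases lt_trichotomy j i with h | h | h
          · exact h
          · exact absurd h hj
          · exfalso; have := j.2; have h' : (i : ℕ) < j := h; omega
        rw [h0 j this, zero_mul]
      · simp
    rw [this]; exact hi
  · have hi3 : (i : ℕ) ≤ 6 := by have := i.2; omega
    have hstep : ∀ j : Fin 8, j ≠ i → -(|d j| * K ^ (6 - (i : ℕ))) ≤ d j * K ^ (7 - (j : ℕ)) := by
      intro j hj
      rcases lt_or_gt_of_ne hj with h | h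
      · rw [h0 j h]; simp
      · have hle : K ^ (7 - (j : ℕ)) ≤ K ^ (6 - (i : ℕ)) := by
          apply pow_le_pow_right₀ hK1.le
          have : (i : ℕ) < j := h
          omega
        have h1 : -(|d j| * K ^ (7 - (j : ℕ))) ≤ d j * K ^ (7 - (j : ℕ)) := by
          have := neg_abs_le (d j)
          have hp : 0 ≤ K ^ (7 - (j : ℕ)) := by positivity
          nlinarith
        have h2 : |d j| * K ^ (7 - (j : ℕ)) ≤ |d j| * K ^ (6 - (i : ℕ)) :=
          mul_le_mul_of_nonneg_left hle (abs_nonneg _)
        linarith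
    rw [← Finset.add_sum_erase _ _ (Finset.mem_univ i)]
    have h1 : -(S * K ^ (6 - (i : ℕ))) ≤ ∑ j ∈ Finset.univ.erase i, d j * K ^ (7 - (j : ℕ)) := by
      calc -(S * K ^ (6 - (i : ℕ))) ≤ ∑ j ∈ Finset.univ.erase i, -(|d j| * K ^ (6 - (i : ℕ))) := by
            rw [Finset.sum_neg_distrib, ← Finset.sum_mul]
            apply neg_le_neg
            apply mul_le_mul_of_nonneg_right _ (by positivity)
            exact Finset.sum_le_sum_of_subset_of_nonneg (Finset.erase_subset _ _)
              fun _ _ _ => abs_nonneg _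
        _ ≤ _ := Finset.sum_le_sum fun j hj => hstep j (Finset.ne_of_mem_erase hj)
    have h2 : K ^ (7 - (i : ℕ)) = K ^ (6 - (i : ℕ)) * K := by
      rw [← pow_succ]; congr 1; omega
    rw [h2]
    have hp : 0 < K ^ (6 - (i : ℕ)) := by positivity
    have h3 : S * K ^ (6 - (i : ℕ)) < d i * (K ^ (6 - (i : ℕ)) * K) := by
      have := mul_lt_mul_of_pos_right hSK hp
      nlinarith
    linarith

/-- a strict lexicographic inequality survives evaluation at every large `K` -/
lemma ev_lt {f g : Gm} (h : f < g) : ∀ᶠ K : ℝ in atTop, ev K f < ev K g := by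
  obtain ⟨i, hi, hlt⟩ := lt_iff.mp h
  have := pos_lead (fun j => co g j - co f j) i (fun j hj => by simp [hi j hj])
    (by simpa using hlt)
  filter_upwards [this] with K hK
  have : ∑ j : Fin 8, (co g j - co f j) * K ^ (7 - (j : ℕ)) = ev K g - ev K f := by
    simp only [ev, ← Finset.sum_sub_distrib]
    exact Finset.sum_congr rfl fun j _ => by ring
  linarith

/-- on a finite family of symbolic values, evaluation at every large `K` is strictly monotone -/
lemma ev_strict {ι : Type*} [Finite ι] (s : ι → Gm) :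
    ∀ᶠ K : ℝ in atTop, ∀ p q, s p < s q → ev K (s p) < ev K (s q) := by
  simp only [eventually_all]
  intro p q h
  exact ev_lt h

/-- evaluation of a circuit commutes with `ev K` when `ev K` is strictly monotone on the values -/
lemma val_ev {n : ℕ} (C : Circuit n) (κ : ℝ → Gm) (x y : Fin n → Gm) (K : ℝ)
    (hκ : ∀ c, ev K (κ c) = c)
    (hmono : ∀ s t, C.val κ x y s < C.val κ x y t → ev K (C.val κ x y s) < ev K (C.val κ x y t)) :
    ∀ t, C.val id (fun i => ev K (x i)) (fun j => ev K (y j)) t = ev K (C.val κ x y t) := by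
  have hle : ∀ s t, C.val κ x y s ≤ C.val κ x y t → ev K (C.val κ x y s) ≤ ev K (C.val κ x y t) := by
    intro s t h
    rcases h.lt_or_eq with h | h
    · exact (hmono s t h).le
    · rw [h]
  have key : ∀ N : ℕ, ∀ t : Fin C.size, (t : ℕ) = N →
      C.val id (fun i => ev K (x i)) (fun j => ev K (y j)) t = ev K (C.val κ x y t) := by
    intro N
    induction N using Nat.strong_induction_on with
    | _ N ih =>
      intro t ht
      rw [Circuit.val, Circuit.val]
      cases hg : C.gate t with
      | x i => rfl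
      | y j => rfl
      | const c => simp [hκ]
      | scale c a =>
        simp only []
        rw [ev_smul, ih a (by rw [← ht]; exact a.2) _ rfl, smul_eq_mul]
      | add a b =>
        simp only []
        rw [ev_add, ih a (by rw [← ht]; exact a.2) _ rfl, ih b (by rw [← ht]; exact b.2) _ rfl]
      | min a b =>
        simp only []
        rw [ih a (by rw [← ht]; exact a.2) _ rfl, ih b (by rw [← ht]; exact b.2) _ rfl]
        rcases le_total (C.val κ x y ⟨a, a.2.trans t.2⟩) (C.val κ x y ⟨b, b.2.trans t.2⟩) with h | h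
        · rw [min_eq_left h, min_eq_left (hle _ _ h)]
        · rw [min_eq_right h, min_eq_right (hle _ _ h)]
      | max a b =>
        simp only []
        rw [ih a (by rw [← ht]; exact a.2) _ rfl, ih b (by rw [← ht]; exact b.2) _ rfl]
        rcases le_total (C.val κ x y ⟨a, a.2.trans t.2⟩) (C.val κ x y ⟨b, b.2.trans t.2⟩) with h | h
        · rw [max_eq_right h, max_eq_right (hle _ _ h)]
        · rw [max_eq_left h, max_eq_left (hle _ _ h)]
  exact fun t => key t t rfl

end Pool.Agent.Lib_MP_852c2d_lc
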