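import Pool.Agent.Lib_MP_852c2d_lc.Core

/-!
# From integer inputs to symbolic inputs, and the lower bound
-/

open Filter

namespace Pool.Agent.Lib_MP_852c2d_lc

attribute [-instance] Pi.instLTLexForall

section
variable {n B T : ℕ}

lemma sx_strict (J : Fin B → Fin T) : StrictMono (sx (n := n) J) := by
  intro i i' h
  have h : (i : ℕ) < i' := h
  by_cases hlt : (i : ℕ) / 2 < (i' : ℕ) / 2
  · refine lt_of_four 2 (fun j hj => ?_) ?_
    · fin_cases j <;> simp at hj <;> simp [sx]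
    · have : (((i : ℕ) / 2 : ℕ) : ℝ) < (((i' : ℕ) / 2 : ℕ) : ℝ) := by exact_mod_cast hlt
      simpa [sx] using this
  · have he : (i : ℕ) / 2 = (i' : ℕ) / 2 := by omega
    have h0 : (i : ℕ) % 2 = 0 := by omega
    have h1 : (i' : ℕ) % 2 = 1 := by omega
    refine lt_of_four 4 (fun j hj => ?_) ?_
    · have hj' : (j : ℕ) < 4 := hj
      fin_cases j
      · simp [sx]
      · simp [sx]
      · simp [sx, he]
      · simp [sx, he]
      all_goals simp at hj'
    · have e1 : co (sx J i) 4 = 0 := by simp [sx, od, h0]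
      have e2 : co (sx J i') 4 = sh J ((i' : ℕ) / 2) := by simp [sx, od, h1]
      rw [e1, e2]
      exact sh_pos J _

lemma sy_strict : StrictMono (sy (n := n)) := by
  intro j j' h
  refine lt_of_four 4 (fun k hk => ?_) ?_
  · fin_cases k <;> simp at hk <;> simp [sy]
  · have : ((j : ℕ) : ℝ) < ((j' : ℕ) : ℝ) := by exact_mod_cast h
    simpa [sy] using this

/-- integer value of `sx` at `K = 2 k` -/
def zx (J : Fin B → Fin T) (k : ℕ) (i : Fin n) : ℤ :=
  (2 * k) ^ 7 + ((i : ℕ) / 2 : ℕ) * (2 * k) ^ 5 + ((i : ℕ) / 2 : ℕ) ^ 2 * (2 * k) ^ 4 +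
    (off J i : ℕ) * (4 * k ^ 3) + (if (i : ℕ) % 2 = 1 then 1 else 0) * (2 * k) ^ 2

/-- integer value of `sy` at `K = 2 k` -/
def zy (k : ℕ) (j : Fin n) : ℤ := (2 * k) ^ 6 + (j : ℕ) * (2 * k) ^ 3 + (j : ℕ) ^ 2 * (2 * k)

lemma zx_eq (J : Fin B → Fin T) (k : ℕ) (i : Fin n) :
    ((zx J k i : ℤ) : ℝ) = ev (2 * (k : ℝ)) (sx J i) := by
  rw [sx, ev_vec, off_eq, zx, od]
  simp only [Int.cast_add, Int.cast_mul, Int.cast_pow, Int.cast_natCast, Int.cast_ofNat,
    Int.cast_ite, Int.cast_one, Int.cast_zero]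
  ring

lemma zy_eq (k : ℕ) (j : Fin n) : ((zy k j : ℤ) : ℝ) = ev (2 * (k : ℝ)) (sy j) := by
  rw [sy, ev_vec, zy]
  push_cast
  ring

lemma ev_sc (K c : ℝ) : ev K (sc c) = c := by
  rw [sc, ev_vec]; ring

/-- a family of circuits that sorts all integer inputs (increasing, with distinct sums) sorts all
symbolic inputs -/
theorem symSorts {m : ℕ} (C : Fin m → Circuit n)
    (h : SortsIntegers C) :
    ∀ J : Fin B → Fin T, ∃ a, SymSorts (C a) J := by
  -- a finite family of symbolic values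
  let ι := (Σ a : Fin m, (Fin B → Fin T) × Fin (C a).size) ⊕
    (((Fin B → Fin T) × (Fin n × Fin n)) ⊕ (((Fin B → Fin T) × Fin n) ⊕ Fin n))
  let s : ι → Gm := fun p => match p with
    | .inl ⟨a, J, t⟩ => run (C a) J t
    | .inr (.inl (J, p)) => ss J p
    | .inr (.inr (.inl (J, i))) => sx J i
    | .inr (.inr (.inr j)) => sy j
  have hev := ev_strict s
  have htend : Tendsto (fun k : ℕ => 2 * (k : ℝ)) atTop atTop :=
    tendsto_natCast_atTop_atTop.const_mul_atTop (by norm_num)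
  obtain ⟨k, hk⟩ := (htend.eventually hev).exists
  intro J
  have hss : ∀ p q, ev (2 * (k : ℝ)) (ss J p) = ev (2 * (k : ℝ)) (ss (n := n) J q) → p = q := by
    intro p q hpq
    apply ss_inj J
    rcases lt_trichotomy (ss J p) (ss J q) with h' | h' | h'
    · exact absurd hpq (hk (.inr (.inl (J, p))) (.inr (.inl (J, q))) h').ne
    · exact h'
    · exact absurd hpq (hk (.inr (.inl (J, q))) (.inr (.inl (J, p))) h').ne'
  obtain ⟨a, hmono, σ, hσ⟩ := h (zx J k) (zy k)
    (fun i i' hii => by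
      have h1 := hk (.inr (.inr (.inl (J, i)))) (.inr (.inr (.inl (J, i')))) (sx_strict J hii)
      have h2 : ((zx J k i : ℤ) : ℝ) < ((zx J k i' : ℤ) : ℝ) := by rw [zx_eq, zx_eq]; exact h1
      exact_mod_cast h2)
    (fun i i' hii => by
      have h1 := hk (.inr (.inr (.inr i))) (.inr (.inr (.inr i'))) (sy_strict hii)
      have h2 : ((zy k i : ℤ) : ℝ) < ((zy k i' : ℤ) : ℝ) := by rw [zy_eq, zy_eq]; exact h1
      exact_mod_cast h2)
    (fun p q hpq => by
      have hpq : zx J k p.1 + zy k p.2 = zx J k q.1 + zy k q.2 := hpq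
      apply hss
      rw [ss, ss, ev_add, ev_add, ← zx_eq, ← zx_eq, ← zy_eq, ← zy_eq]
      exact_mod_cast hpq)
  have hval : ∀ t, (C a).val id (fun i => ((zx J k i : ℤ) : ℝ)) (fun j => ((zy k j : ℤ) : ℝ)) t =
      ev (2 * (k : ℝ)) (run (C a) J t) := by
    intro t
    simp only [zx_eq, zy_eq]
    exact val_ev (C a) sc (sx J) sy _ (ev_sc _)
      (fun s t hst => hk (.inl ⟨a, J, s⟩) (.inl ⟨a, J, t⟩) hst) t
  have hout : ∀ q, run (C a) J ((C a).out q) = ss J (σ q) := by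
    intro q
    have h1 := hσ q
    dsimp only at h1
    rw [hval, zx_eq, zy_eq, ← ev_add] at h1
    change ev (2 * (k : ℝ)) (run (C a) J ((C a).out q)) = ev (2 * (k : ℝ)) (ss J (σ q)) at h1
    rcases lt_trichotomy (run (C a) J ((C a).out q)) (ss J (σ q)) with h' | h' | h'
    · exact absurd h1 (hk (.inl ⟨a, J, (C a).out q⟩) (.inr (.inl (J, σ q))) h').ne
    · exact h'
    · exact absurd h1 (hk (.inr (.inl (J, σ q))) (.inl ⟨a, J, (C a).out q⟩) h').ne'
  refine ⟨a, σ, ?_, hout⟩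
  intro q q' hqq
  have h1 : ev (2 * (k : ℝ)) (run (C a) J ((C a).out q)) ≤
      ev (2 * (k : ℝ)) (run (C a) J ((C a).out q')) := by
    have := hmono hqq.le
    simp only [hval] at this
    exact this
  rcases lt_trichotomy (run (C a) J ((C a).out q)) (run (C a) J ((C a).out q'))
    with h' | h' | h'
  · exact h'
  · exfalso
    rw [hout, hout] at h'
    have h2 : σ q = σ q' := ss_inj J h'
    exact absurd (σ.injective h2) hqq.ne
  · exact absurd h1 (not_le.mpr (hk (.inl ⟨a, J, (C a).out q'⟩) (.inl ⟨a, J, (C a).out q⟩) h'))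

end

/-- the lower bound -/
theorem main (n T m : ℕ) (hT1 : 1 ≤ T) (hTn : T ≤ n) (C : Fin m → Circuit n)
    (h : SortsIntegers C)
    (M : ℕ) (hM : ∀ a, (C a).minMax ≤ M) :
    2 * ((n : ℝ) - T) * (((n / 2 : ℕ) : ℝ) * Real.logb 2 T - Real.logb 2 m) ≤ M := by
  classical
  have hs := symSorts (B := n / 2) (T := T) C h
  let F : Fin m → Finset (Fin (n / 2) → Fin T) := fun a => Finset.univ.filter fun J => SymSorts (C a) J
  have hm : 0 < m := by
    obtain ⟨a, -⟩ := hs fun _ => ⟨0, hT1⟩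
    exact a.pos
  have hcover : T ^ (n / 2) ≤ ∑ a, (F a).card := by
    have h1 : (Finset.univ : Finset (Fin (n / 2) → Fin T)) ⊆ Finset.univ.biUnion F := by
      intro J _
      obtain ⟨a, ha⟩ := hs J
      exact Finset.mem_biUnion.mpr ⟨a, Finset.mem_univ _, by simp [F, ha]⟩
    have h2 := (Finset.card_le_card h1).trans Finset.card_biUnion_le
    simpa using h2
  obtain ⟨a, ha⟩ : ∃ a, T ^ (n / 2) ≤ m * (F a).card := by
    by_contra hcon
    push_neg at hcon
    have h1 : ∑ a : Fin m, m * (F a).card < ∑ a : Fin m, T ^ (n / 2) :=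
      Finset.sum_lt_sum_of_nonempty (Finset.univ_nonempty_iff.mpr ⟨⟨0, hm⟩⟩) fun a _ => hcon a
    rw [← Finset.mul_sum] at h1
    simp only [Finset.sum_const, Finset.card_univ, Fintype.card_fin, smul_eq_mul] at h1
    have := lt_of_mul_lt_mul_left h1 (Nat.zero_le m)
    omega
  have hTpos : 0 < T ^ (n / 2) := by positivity
  have hFpos : 0 < (F a).card := by
    rcases Nat.eq_zero_or_pos (F a).card with h0 | h0
    · rw [h0] at ha; omega
    · exact h0
  have hcore := core rfl hTn (C a) (F a) (Finset.card_pos.mp hFpos) fun J hJ => by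
    simpa [F] using hJ
  have hlog : ((n / 2 : ℕ) : ℝ) * Real.logb 2 T - Real.logb 2 m ≤ Real.logb 2 (F a).card := by
    have h1 : Real.logb 2 ((T : ℝ) ^ (n / 2)) ≤ Real.logb 2 ((m : ℝ) * (F a).card) := by
      apply Real.logb_le_logb_of_le (by norm_num) (by positivity)
      exact_mod_cast ha
    rw [Real.logb_pow, Real.logb_mul (by positivity) (by positivity)] at h1
    linarith
  have h2 : 2 * ((n : ℝ) - T) = ((2 * n - T - T : ℕ) : ℝ) := by
    have : 2 * n - T - T = 2 * (n - T) := by omega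
    rw [this]
    push_cast [Nat.cast_sub hTn]
    ring
  have h3 : 0 ≤ 2 * ((n : ℝ) - T) := by rw [h2]; positivity
  calc _ ≤ 2 * ((n : ℝ) - T) * Real.logb 2 (F a).card := mul_le_mul_of_nonneg_left hlog h3
    _ = ((2 * n - T - T : ℕ) : ℝ) * Real.logb 2 (F a).card := by rw [h2]
    _ ≤ (C a).minMax := hcore
    _ ≤ M := by exact_mod_cast hM a

/-- the asymptotic form of the lower bound -/
theorem asym (ε : ℝ) (hε : 0 < ε) : ∃ N : ℕ, ∀ n ≥ N, ∀ (m : ℕ) (C : Fin m → Circuit n),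
    SortsIntegers C → ∀ M : ℕ, (∀ a, (C a).minMax ≤ M) →
      (1 - ε) * (n : ℝ) ^ 2 * Real.logb 2 n - 2 * n * Real.logb 2 m ≤ M := by
  set δ : ℝ := min ε 1 / 4 with hδ
  have hδ0 : 0 < δ := by have : 0 < min ε 1 := lt_min hε one_pos; positivity
  have hδ1 : δ ≤ 1 / 4 := by have : min ε 1 ≤ 1 := min_le_right _ _; linarith
  have hδε : 4 * δ ≤ ε := by have : min ε 1 ≤ ε := min_le_left _ _; linarith
  set c : ℝ := Real.logb 2 (2 / δ) with hc
  have hc0 : 0 ≤ c := Real.logb_nonneg (by norm_num) (by rw [le_div_iff₀ hδ0]; linarith)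
  have h1 : ∀ᶠ n : ℕ in atTop, c / δ ≤ Real.logb 2 (n : ℝ) :=
    ((Real.tendsto_logb_atTop (by norm_num : (1 : ℝ) < 2)).comp
      tendsto_natCast_atTop_atTop).eventually_ge_atTop _
  have h2 : ∀ᶠ n : ℕ in atTop, 2 / δ ≤ (n : ℝ) := tendsto_natCast_atTop_atTop.eventually_ge_atTop _
  obtain ⟨N, hN⟩ := eventually_atTop.mp (h1.and h2)
  refine ⟨N, fun n hn m C hC M hM => ?_⟩
  obtain ⟨hL, hn2⟩ := hN n hn
  set L : ℝ := Real.logb 2 (n : ℝ) with hLdef
  have hn0 : (0 : ℝ) < n := lt_of_lt_of_le (by positivity) hn2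
  have hδn : 2 ≤ δ * n := by
    rw [div_le_iff₀ hδ0] at hn2; linarith
  set T : ℕ := ⌊δ * n⌋₊ with hT
  have hT1 : 1 ≤ T := Nat.le_floor (by push_cast; linarith)
  have hTle : (T : ℝ) ≤ δ * n := Nat.floor_le (by positivity)
  have hTge : δ * n / 2 ≤ T := by
    have := Nat.lt_floor_add_one (δ * n)
    rw [← hT] at this
    linarith
  have hTn : T ≤ n := by
    have : (T : ℝ) ≤ n := by nlinarith
    exact_mod_cast this
  have hmain := main n T m hT1 hTn C hC M hM
  have hm : 0 ≤ Real.logb 2 (m : ℝ) := by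
    rcases Nat.eq_zero_or_pos m with h0 | h0
    · rw [h0]; simp
    · exact Real.logb_nonneg (by norm_num) (by exact_mod_cast h0)
  have hlogT : L - c ≤ Real.logb 2 T := by
    have h3 : Real.logb 2 (δ * n / 2) ≤ Real.logb 2 T :=
      Real.logb_le_logb_of_le (by norm_num) (by positivity) hTge
    have h4 : δ * n / 2 = n / (2 / δ) := by field_simp
    rw [h4, Real.logb_div (by positivity) (by positivity)] at h3
    exact h3
  have hLc : (1 - δ) * L ≤ L - c := by
    rw [div_le_iff₀ hδ0] at hL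
    linarith
  have hL0 : 0 ≤ L := le_trans (by positivity) hL
  have hB : (1 - δ) * n ≤ 2 * ((n / 2 : ℕ) : ℝ) := by
    have h5 : (n : ℝ) ≤ 2 * ((n / 2 : ℕ) : ℝ) + 1 := by
      have : n ≤ 2 * (n / 2) + 1 := by omega
      exact_mod_cast this
    linarith
  have hnT : (1 - δ) * n ≤ (n : ℝ) - T := by linarith
  have hd1 : 0 ≤ 1 - δ := by linarith
  have k1 : (1 - δ) * L ≤ Real.logb 2 T := hLc.trans hlogT
  have k2 : ((1 - δ) * n) * ((1 - δ) * L) ≤ 2 * ((n / 2 : ℕ) : ℝ) * Real.logb 2 T :=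
    mul_le_mul hB k1 (by positivity) (by positivity)
  have k3 : ((1 - δ) * n) * (((1 - δ) * n) * ((1 - δ) * L)) ≤
      ((n : ℝ) - T) * (2 * ((n / 2 : ℕ) : ℝ) * Real.logb 2 T) :=
    mul_le_mul hnT k2 (by positivity) (le_trans (by positivity) hnT)
  have k4 : (1 - ε) * (n : ℝ) ^ 2 * L ≤ ((1 - δ) * n) * (((1 - δ) * n) * ((1 - δ) * L)) := by
    have e1 : ((1 - δ) * n) * (((1 - δ) * n) * ((1 - δ) * L)) = (1 - δ) ^ 3 * ((n : ℝ) ^ 2 * L) := by
      ring
    rw [e1, mul_assoc]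
    apply mul_le_mul_of_nonneg_right _ (by positivity)
    have : (1 - δ) ^ 3 = 1 - 3 * δ + δ ^ 2 * (3 - δ) := by ring
    have h6 : 0 ≤ δ ^ 2 * (3 - δ) := mul_nonneg (sq_nonneg _) (by linarith)
    linarith
  have k5 : 2 * ((n : ℝ) - T) * Real.logb 2 m ≤ 2 * n * Real.logb 2 m := by
    apply mul_le_mul_of_nonneg_right _ hm
    have : (0 : ℝ) ≤ T := by positivity
    linarith
  have k6 : 2 * ((n : ℝ) - T) * (((n / 2 : ℕ) : ℝ) * Real.logb 2 T - Real.logb 2 m) =
      ((n : ℝ) - T) * (2 * ((n / 2 : ℕ) : ℝ) * Real.logb 2 T) -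
        2 * ((n : ℝ) - T) * Real.logb 2 m := by ring
  rw [k6] at hmain
  linarith

end Pool.Agent.Lib_MP_852c2d_lc
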