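import Pool.Agent.Lib_MP_852c2d_lc.Struct

/-!
# Induction over the nodes of a circuit
-/

namespace Pool.Agent.Lib_MP_852c2d_lc

attribute [-instance] Pi.instLTLexForall

section
variable {n B T : ℕ} {C : Circuit n}

lemma single_zero {J : Fin B → Fin T} {l : Fin n × Fin n} {p : Gm}
    (h : Single J l p) : co p 0 ≠ 0 ∧ co p 1 ≠ 0 := ⟨h.1.ne', h.2.1.ne'⟩

/-- a node that never has a single value -/
lemma Track.triv {t : Fin C.size} (h : ∀ (J : Fin B → Fin T) (l : Fin n × Fin n),
    ¬ Single J l (run C J t)) : Track B T C t :=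
  ⟨fun _ => ∅, fun _ => 0, fun _ => le_refl _, by simp, fun J l hs => absurd hs (h J l)⟩

/-- a node whose label does not depend on the input -/
lemma Track.const {t : Fin C.size} (h : ∀ (J J' : Fin B → Fin T) (l l' : Fin n × Fin n),
    Single J l (run C J t) → Single J' l' (run C J' t) → l = l') : Track B T C t := by
  classical
  by_cases hex : ∃ (J : Fin B → Fin T) (l : Fin n × Fin n), Single J l (run C J t)
  · obtain ⟨J₀, l₀, h₀⟩ := hex
    refine ⟨fun _ => ∅, fun l => if l = l₀ then 1 else 0, fun l => by dsimp only; split_ifs <;> simp,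
      by simp, fun J l hs => ⟨by simp, ?_⟩⟩
    rw [h J J₀ l l₀ hs h₀]; simp
  · push_neg at hex
    exact Track.triv hex

lemma pre_smul {J : Fin B → Fin T} {l : Fin n × Fin n} {p : Gm} {c : ℝ} (hc : 0 < c)
    (h : Single J l (c • p)) : Single J l p := by
  obtain ⟨h0, h1, h⟩ := h
  have k0 := h0
  have k1 := h1
  rw [co_smul] at k0 k1
  refine ⟨(mul_pos_iff_of_pos_left hc).mp k0, (mul_pos_iff_of_pos_left hc).mp k1,
    ⟨?_, ?_, ?_, ?_, ?_⟩⟩
  · have := h.h2; simp only [co_smul] at this
    exact mul_left_cancel₀ hc.ne' (by rw [this]; ring)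
  · have := h.h3; simp only [co_smul] at this
    exact mul_left_cancel₀ hc.ne' (by rw [this]; ring)
  · have := h.h4; simp only [co_smul] at this
    exact mul_left_cancel₀ hc.ne' (by rw [this]; ring)
  · have := h.h5; simp only [co_smul] at this
    exact mul_left_cancel₀ hc.ne' (by rw [this]; ring)
  · have := h.h6; simp only [co_smul] at this
    exact mul_left_cancel₀ hc.ne' (by rw [this]; ring)

/-- scaling gates -/
lemma Info.scale {t u : Fin C.size} (hu : Info B T C u) (hut : u < t) {c : ℝ} (hc : 0 ≤ c)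
    (h : ∀ J : Fin B → Fin T, run C J t = c • run C J u) : Info B T C t := by
  have hdeg : ∀ J J' : Fin B → Fin T, ∀ i : Fin 8, (i : ℕ) < 4 →
      co (run C J t) i = co (run C J' t) i := by
    intro J J' i hi
    rw [h, h, co_smul, co_smul, hu.deg J J' i hi]
  have hrep : ∀ J : Fin B → Fin T, ∃ a b : Fin n → ℝ, Rep J (run C J t) a b := by
    intro J
    obtain ⟨a, b, hr⟩ := hu.rep J
    rw [h]
    exact ⟨_, _, hr.smul hc⟩
  rcases hc.lt_or_eq with hc | hc
  · refine ⟨hrep, hdeg, fun J J' h0 => ?_, fun β J₀ k1 kQ => ?_,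
      hu.track.copy hut.le fun J l hs => by rw [h] at hs; exact pre_smul hc hs⟩
    · rw [h, co_smul] at h0
      rw [h, h, hu.pure0 J J' ((mul_eq_zero.mp h0).resolve_left hc.ne')]
    · rw [h, co_smul] at k1
      have k1 := (mul_eq_zero.mp k1).resolve_left hc.ne'
      have kQ' : c * Qf β (run C J₀ u) = 0 := by
        rw [← kQ, Qf, Qf, h]; simp only [co_smul]; ring
      have kQ' := (mul_eq_zero.mp kQ').resolve_left hc.ne'
      obtain ⟨o, d, H⟩ := hu.pure1 β J₀ k1 kQ'
      refine ⟨c * o, c * d, fun J => ?_⟩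
      obtain ⟨q1, q2, q3, q4⟩ := H J
      rw [h]
      simp only [co_smul]
      rw [q1, q2, q3, q4]
      exact ⟨rfl, by ring, by ring, rfl⟩
  · have hz : ∀ (J : Fin B → Fin T) i, co (run C J t) i = 0 := by
      intro J i
      rw [h, co_smul, ← hc, zero_mul]
    refine ⟨hrep, hdeg, fun J J' _ => co_ext fun i => by rw [hz, hz], fun β J₀ _ _ =>
      ⟨0, 0, fun J => ?_⟩, Track.triv fun J l hs => (single_zero hs).1 (hz J 0)⟩
    rw [hz, hz, hz, hz]; simp

/-- the label of a sum of a pure `x` node and a pure `y` node does not depend on the input -/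
lemma uniq_aux {t u v : Fin C.size} (hu : Info B T C u) (hv : Info B T C v)
    (h : ∀ J : Fin B → Fin T, run C J t = run C J u + run C J v) {J J' : Fin B → Fin T}
    {l l' : Fin n × Fin n} (h1 : co (run C J u) 1 = 0) (h0 : co (run C J v) 0 = 0)
    (hs : Single J l (run C J t)) (hs' : Single J' l' (run C J' t)) : l = l' := by
  have evv : run C J v = run C J' v := hv.pure0 J J' h0
  obtain ⟨a, b, hr⟩ := hu.rep J
  obtain ⟨a', b', hr'⟩ := hv.rep J
  have hpre : Pre J l (run C J u) := rigid hr hr' (by rw [← h]; exact hs.2.2)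
  have hQ : Qf ((l.1 : ℕ) / 2) (run C J u) = 0 := by
    rw [Qf, hpre.h2, hpre.h3]; ring
  obtain ⟨o, c, H⟩ := hu.pure1 _ J h1 hQ
  refine label_of_co hs hs' ?_ ?_ ?_ ?_ ?_
  · rw [h, h, co_add, co_add, hu.deg J J' 0 (by simp), evv]
  · rw [h, h, co_add, co_add, hu.deg J J' 1 (by simp), evv]
  · rw [h, h, co_add, co_add, hu.deg J J' 2 (by simp), evv]
  · rw [h, h, co_add, co_add, (H J).1, (H J').1, evv]
  · rw [h, h, co_add, co_add, (H J).2.2.1, (H J').2.2.1, evv]

/-- addition gates -/
lemma Info.add {t u v : Fin C.size} (hu : Info B T C u) (hv : Info B T C v) (hut : u < t)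
    (hvt : v < t) (h : ∀ J : Fin B → Fin T, run C J t = run C J u + run C J v) : Info B T C t := by
  have hn0u : ∀ J : Fin B → Fin T, 0 ≤ co (run C J u) 0 ∧ 0 ≤ co (run C J u) 1 := by
    intro J; obtain ⟨a, b, hr⟩ := hu.rep J; exact ⟨hr.nonneg0, hr.nonneg1⟩
  have hn0v : ∀ J : Fin B → Fin T, 0 ≤ co (run C J v) 0 ∧ 0 ≤ co (run C J v) 1 := by
    intro J; obtain ⟨a, b, hr⟩ := hv.rep J; exact ⟨hr.nonneg0, hr.nonneg1⟩
  have hpre : ∀ (J : Fin B → Fin T) (l : Fin n × Fin n), Single J l (run C J t) →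
      Pre J l (run C J u) ∧ Pre J l (run C J v) := by
    intro J l hs
    obtain ⟨a, b, hr⟩ := hu.rep J
    obtain ⟨a', b', hr'⟩ := hv.rep J
    exact ⟨rigid hr hr' (by rw [← h]; exact hs.2.2),
      rigid hr' hr (by rw [add_comm, ← h]; exact hs.2.2)⟩
  refine ⟨fun J => ?_, fun J J' i hi => ?_, fun J J' h0 => ?_, fun β J₀ k1 kQ => ?_, ?_⟩
  · obtain ⟨a, b, hr⟩ := hu.rep J
    obtain ⟨a', b', hr'⟩ := hv.rep J
    rw [h]
    exact ⟨_, _, hr.add hr'⟩
  · rw [h, h, co_add, co_add, hu.deg J J' i hi, hv.deg J J' i hi]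
  · rw [h, co_add] at h0
    have := hn0u J
    have := hn0v J
    rw [h, h, hu.pure0 J J' (by linarith), hv.pure0 J J' (by linarith)]
  · rw [h, co_add] at k1
    have e1 := hn0u J₀
    have e2 := hn0v J₀
    have kQ' : Qf β (run C J₀ u) + Qf β (run C J₀ v) = 0 := by
      rw [← kQ, Qf, Qf, Qf, h]; simp only [co_add]; ring
    obtain ⟨a, b, hr⟩ := hu.rep J₀
    obtain ⟨a', b', hr'⟩ := hv.rep J₀
    have e3 := hr.Q_nonneg β
    have e4 := hr'.Q_nonneg β
    obtain ⟨o, c, H⟩ := hu.pure1 β J₀ (by linarith) (by linarith)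
    obtain ⟨o', c', H'⟩ := hv.pure1 β J₀ (by linarith) (by linarith)
    refine ⟨o + o', c + c', fun J => ?_⟩
    obtain ⟨q1, q2, q3, q4⟩ := H J
    obtain ⟨q1', q2', q3', q4'⟩ := H' J
    rw [h]
    simp only [co_add]
    rw [q1, q2, q3, q4, q1', q2', q3', q4']
    exact ⟨rfl, by ring, by ring, rfl⟩
  · by_cases hu2 : ∀ J : Fin B → Fin T, 0 < co (run C J u) 0 ∧ 0 < co (run C J u) 1
    · exact hu.track.copy hut.le fun J l hs => ⟨(hu2 J).1, (hu2 J).2, (hpre J l hs).1⟩
    by_cases hv2 : ∀ J : Fin B → Fin T, 0 < co (run C J v) 0 ∧ 0 < co (run C J v) 1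
    · exact hv.track.copy hvt.le fun J l hs => ⟨(hv2 J).1, (hv2 J).2, (hpre J l hs).2⟩
    have hu3 : ∀ J : Fin B → Fin T, co (run C J u) 0 = 0 ∨ co (run C J u) 1 = 0 := by
      intro J
      by_contra hcon
      push_neg at hcon
      apply hu2
      intro J'
      rw [hu.deg J' J 0 (by simp), hu.deg J' J 1 (by simp)]
      exact ⟨lt_of_le_of_ne (hn0u J).1 hcon.1.symm, lt_of_le_of_ne (hn0u J).2 hcon.2.symm⟩
    have hv3 : ∀ J : Fin B → Fin T, co (run C J v) 0 = 0 ∨ co (run C J v) 1 = 0 := by
      intro J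
      by_contra hcon
      push_neg at hcon
      apply hv2
      intro J'
      rw [hv.deg J' J 0 (by simp), hv.deg J' J 1 (by simp)]
      exact ⟨lt_of_le_of_ne (hn0v J).1 hcon.1.symm, lt_of_le_of_ne (hn0v J).2 hcon.2.symm⟩
    apply Track.const
    intro J J' l l' hs hs'
    have hs0 := hs.1
    have hs1 := hs.2.1
    rw [h, co_add] at hs0 hs1
    rcases hu3 J with ku | ku <;> rcases hv3 J with kv | kv
    · rw [ku, kv] at hs0; simp at hs0
    · exact uniq_aux hv hu (fun J => by rw [h J, add_comm]) kv ku hs hs'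
    · exact uniq_aux hu hv h ku kv hs hs'
    · rw [ku, kv] at hs1; simp at hs1

/-- every node of every circuit -/
theorem info (B T : ℕ) (C : Circuit n) : ∀ t, Info B T C t := by
  have key : ∀ N : ℕ, ∀ t : Fin C.size, (t : ℕ) = N → Info B T C t := by
    intro N
    induction N using Nat.strong_induction_on with
    | _ N ih =>
      intro t ht
      cases hg : C.gate t with
      | x i =>
        have hr : ∀ J : Fin B → Fin T, run C J t = sx J i := fun J => by rw [run, Circuit.val, hg]
        refine ⟨fun J => ⟨_, _, by rw [hr J]; exact rep_x J i⟩, fun J J' k hk => ?_,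
          fun J J' h0 => ?_, fun β J₀ _ hQ => ?_, Track.triv fun J l hs => ?_⟩
        · rw [hr J, hr J']
          fin_cases k <;> simp at hk <;> simp [sx]
        · rw [hr J] at h0; simp [sx] at h0
        · rw [hr J₀] at hQ
          have hβ : (((i : ℕ) / 2 : ℕ) : ℝ) = β := by
            have : ((((i : ℕ) / 2 : ℕ) : ℝ) - β) ^ 2 = 0 := by
              rw [← hQ, Qf]; simp only [sx, co_vec]; simp; ring
            have := pow_eq_zero_iff (two_ne_zero) |>.mp this
            linarith
          have hβ : (i : ℕ) / 2 = β := by exact_mod_cast hβ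
          refine ⟨od i, 0, fun J => ?_⟩
          rw [hr J]
          simp [sx, hβ]
        · have := (single_zero hs).2
          rw [hr J] at this
          simp [sx] at this
      | y j =>
        have hr : ∀ J : Fin B → Fin T, run C J t = sy j := fun J => by rw [run, Circuit.val, hg]
        refine ⟨fun J => ⟨_, _, by rw [hr J]; exact rep_y J j⟩, fun J J' k hk => ?_,
          fun J J' h0 => ?_, fun β J₀ h1 hQ => ?_, Track.triv fun J l hs => ?_⟩
        · rw [hr J, hr J']
        · rw [hr J, hr J']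
        · rw [hr J₀] at h1; simp [sy] at h1
        · have := (single_zero hs).1
          rw [hr J] at this
          simp [sy] at this
      | const c =>
        have hr : ∀ J : Fin B → Fin T, run C J t = sc c := fun J => by rw [run, Circuit.val, hg]
        refine ⟨fun J => ⟨_, _, by rw [hr J]; exact rep_c J c⟩, fun J J' k hk => ?_,
          fun J J' h0 => ?_, fun β J₀ h1 hQ => ⟨0, c, fun J => ?_⟩, Track.triv fun J l hs => ?_⟩
        · rw [hr J, hr J']
        · rw [hr J, hr J']
        · rw [hr J]; simp [sc]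
        · have := (single_zero hs).1
          rw [hr J] at this
          simp [sc] at this
      | scale c a =>
        refine Info.scale (u := ⟨a, a.2.trans t.2⟩)
          (ih a (by rw [← ht]; exact a.2) _ rfl) a.2 c.2 fun J => ?_
        rw [run, Circuit.val, hg]
        rfl
      | add a b =>
        refine Info.add (u := ⟨a, a.2.trans t.2⟩) (v := ⟨b, b.2.trans t.2⟩)
          (ih a (by rw [← ht]; exact a.2) _ rfl) (ih b (by rw [← ht]; exact b.2) _ rfl)
          a.2 b.2 fun J => ?_
        rw [run, Circuit.val, hg]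
      | min a b =>
        have hr : ∀ J : Fin B → Fin T, run C J t = Min.min (run C J ⟨a, a.2.trans t.2⟩)
          (run C J ⟨b, b.2.trans t.2⟩) := fun J => by rw [run, Circuit.val, hg]
        refine Info.sel (u := ⟨a, a.2.trans t.2⟩) (v := ⟨b, b.2.trans t.2⟩)
          (ih a (by rw [← ht]; exact a.2) _ rfl) (ih b (by rw [← ht]; exact b.2) _ rfl)
          a.2 b.2 (by rw [hg]; trivial) (fun J => ?_) (fun H => Or.inl fun J => ?_)
          (fun H => Or.inr fun J => ?_)
        · rw [hr J]; exact min_choice _ _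
        · rw [hr J]; exact min_eq_left (H J)
        · rw [hr J]; exact min_eq_right (H J)
      | max a b =>
        have hr : ∀ J : Fin B → Fin T, run C J t = Max.max (run C J ⟨a, a.2.trans t.2⟩)
          (run C J ⟨b, b.2.trans t.2⟩) := fun J => by rw [run, Circuit.val, hg]
        refine Info.sel (u := ⟨a, a.2.trans t.2⟩) (v := ⟨b, b.2.trans t.2⟩)
          (ih a (by rw [← ht]; exact a.2) _ rfl) (ih b (by rw [← ht]; exact b.2) _ rfl)
          a.2 b.2 (by rw [hg]; trivial) (fun J => ?_) (fun H => Or.inr fun J => ?_)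
          (fun H => Or.inl fun J => ?_)
        · rw [hr J]; exact max_choice _ _
        · rw [hr J]; exact max_eq_right (H J)
        · rw [hr J]; exact max_eq_left (H J)
  exact fun t => key t t rfl

end

end Pool.Agent.Lib_MP_852c2d_lc
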