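import Pool.Agent.Lib_MP_852c2d_lc.Nodes

/-!
# The symbolic inputs and the ranks of their sums
-/

namespace Pool.Agent.Lib_MP_852c2d_lc

attribute [-instance] Pi.instLTLexForall

/-- doubled offset of row `i` inside its block -/
def off {B T : ℕ} (J : Fin B → Fin T) (i : ℕ) : ℕ := if i % 2 = 1 then 2 * jv J (i / 2) + 1 else 0

section
variable {n B T : ℕ}

lemma off_eq (J : Fin B → Fin T) (i : ℕ) : od i * sh J (i / 2) = (off J i : ℝ) / 2 := by
  unfold od sh off
  split_ifs
  · push_cast; ring
  · simp

/-- the sum with label `p` -/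
noncomputable def ss (J : Fin B → Fin T) (p : Fin n × Fin n) : Gm := sx J p.1 + sy p.2

lemma ss_single (J : Fin B → Fin T) (p : Fin n × Fin n) : Single J p (ss J p) := by
  refine ⟨by simp [ss, sx, sy], by simp [ss, sx, sy], ⟨?_, ?_, ?_, ?_, ?_⟩⟩ <;> simp [ss, sx, sy]

/-- a label is determined by the value -/
lemma ss_inj (J : Fin B → Fin T) {p q : Fin n × Fin n} (h : ss J p = ss J q) : p = q := by
  refine label_of_co (ss_single J p) (ss_single J q) ?_ ?_ ?_ ?_ ?_ <;> rw [h]

lemma ss_lt_of (J : Fin B → Fin T) (p q : Fin n × Fin n)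
    (h : (p.1 : ℕ) / 2 < (q.1 : ℕ) / 2 ∨ ((p.1 : ℕ) / 2 = (q.1 : ℕ) / 2 ∧
      off J p.1 + 2 * (p.2 : ℕ) < off J q.1 + 2 * (q.2 : ℕ))) : ss J p < ss J q := by
  rcases h with h | ⟨h, h'⟩
  · refine lt_of_four 2 (fun j hj => ?_) ?_
    · fin_cases j <;> simp at hj <;> simp [ss, sx, sy]
    · have : (((p.1 : ℕ) / 2 : ℕ) : ℝ) < (((q.1 : ℕ) / 2 : ℕ) : ℝ) := by exact_mod_cast h
      simpa [ss, sx, sy] using this
  · refine lt_of_four 4 (fun j hj => ?_) ?_
    · have hj' : (j : ℕ) < 4 := hj
      fin_cases j
      · simp [ss, sx, sy]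
      · simp [ss, sx, sy]
      · simp [ss, sx, sy, h]
      · simp [ss, sx, sy, h]
      all_goals simp at hj'
    · have h2 : (off J p.1 : ℝ) + 2 * ((p.2 : ℕ) : ℝ) < (off J q.1 : ℝ) + 2 * ((q.2 : ℕ) : ℝ) := by
        exact_mod_cast h'
      have e1 : co (ss J p) 4 = (off J p.1 : ℝ) / 2 + ((p.2 : ℕ) : ℝ) := by
        rw [← off_eq]; simp [ss, sx, sy]
      have e2 : co (ss J q) 4 = (off J q.1 : ℝ) / 2 + ((q.2 : ℕ) : ℝ) := by
        rw [← off_eq]; simp [ss, sx, sy]
      rw [e1, e2]
      linarith

lemma ss_lt (J : Fin B → Fin T) (p q : Fin n × Fin n) : ss J p < ss J q ↔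
    (p.1 : ℕ) / 2 < (q.1 : ℕ) / 2 ∨ ((p.1 : ℕ) / 2 = (q.1 : ℕ) / 2 ∧
      off J p.1 + 2 * (p.2 : ℕ) < off J q.1 + 2 * (q.2 : ℕ)) := by
  refine ⟨fun h => ?_, ss_lt_of J p q⟩
  by_contra hcon
  push_neg at hcon
  obtain ⟨h1, h2⟩ := hcon
  rcases h1.lt_or_eq with h1 | h1
  · exact lt_asymm h (ss_lt_of J q p (Or.inl h1))
  · have h2 := h2 h1.symm
    rcases h2.lt_or_eq with h2 | h2
    · exact lt_asymm h (ss_lt_of J q p (Or.inr ⟨h1, h2⟩))
    · have hpq : p = q := by
        have h3 : (p.1 : ℕ) % 2 = (q.1 : ℕ) % 2 := by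
          unfold off at h2
          rw [h1] at h2
          rcases Nat.mod_two_eq_zero_or_one p.1 with h0 | h0 <;>
            rcases Nat.mod_two_eq_zero_or_one q.1 with h1 | h1 <;>
            simp only [h0, h1] at h2 ⊢ <;> simp at h2 <;> omega
        have h4 : p.1 = q.1 := Fin.ext (by omega)
        have h5 : p.2 = q.2 := by
          rw [h4] at h2
          exact Fin.ext (by omega)
        exact Prod.ext h4 h5
      rw [hpq] at h
      exact lt_irrefl _ h

lemma card_fin_lt (n o d : ℕ) :
    (Finset.univ.filter fun j : Fin n => d + 2 * (j : ℕ) < o).card = min n ((o - d + 1) / 2) := by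
  have : (Finset.univ.filter fun j : Fin n => d + 2 * (j : ℕ) < o).card =
      ((Finset.range n).filter fun j => d + 2 * j < o).card := by
    rw [Finset.card_filter, Finset.card_filter, Finset.sum_range]
  rw [this]
  have : (Finset.range n).filter (fun j => d + 2 * j < o) = Finset.range (min n ((o - d + 1) / 2)) := by
    ext j
    simp only [Finset.mem_filter, Finset.mem_range, lt_min_iff]
    constructor
    · rintro ⟨h1, h2⟩; exact ⟨h1, by omega⟩
    · rintro ⟨h1, h2⟩; exact ⟨h1, by omega⟩
  rw [this, Finset.card_range]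

lemma sum_block (n β N c0 c1 : ℕ) (h : 2 * β < n) :
    ∑ i ∈ Finset.range n, (if i / 2 < β then N else if i = 2 * β then c0 else
      if i = 2 * β + 1 then c1 else 0) = 2 * β * N + c0 + if 2 * β + 1 < n then c1 else 0 := by
  have e : ∀ i ∈ Finset.range n, (if i / 2 < β then N else if i = 2 * β then c0 else
      if i = 2 * β + 1 then c1 else 0) = (if i < 2 * β then N else 0) +
      (if i = 2 * β then c0 else 0) + (if i = 2 * β + 1 then c1 else 0) := by
    intro i _
    split_ifs <;> omega
  rw [Finset.sum_congr rfl e, Finset.sum_add_distrib, Finset.sum_add_distrib,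
    Finset.sum_ite_eq' , Finset.sum_ite_eq']
  have h1 : ∑ i ∈ Finset.range n, (if i < 2 * β then N else 0) = 2 * β * N := by
    rw [← Finset.sum_filter]
    have : (Finset.range n).filter (fun i => i < 2 * β) = Finset.range (2 * β) := by
      ext i
      simp only [Finset.mem_filter, Finset.mem_range]
      omega
    rw [this]; simp
  rw [h1]
  simp [h]

/-- number of sums smaller than the sum with label `p` -/
noncomputable def rk (J : Fin B → Fin T) (p : Fin n × Fin n) : ℕ := by
  classical exact (Finset.univ.filter fun q : Fin n × Fin n => ss J q < ss J p).card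

lemma rk_eq (J : Fin B → Fin T) (p : Fin n × Fin n) : rk J p =
    2 * ((p.1 : ℕ) / 2) * n + min n ((off J p.1 + 2 * (p.2 : ℕ) + 1) / 2) +
      if 2 * ((p.1 : ℕ) / 2) + 1 < n then
        min n ((off J p.1 + 2 * (p.2 : ℕ) - 2 * jv J ((p.1 : ℕ) / 2)) / 2) else 0 := by
  classical
  set β := (p.1 : ℕ) / 2 with hβ
  set o := off J p.1 + 2 * (p.2 : ℕ) with ho
  have hlt : 2 * β < n := by have := p.1.2; omega
  have h1 : rk J p = ∑ i : Fin n, (Finset.univ.filter fun j : Fin n => ss J (i, j) < ss J p).card := by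
    rw [rk, Finset.card_filter, Fintype.sum_prod_type]
    refine Finset.sum_congr rfl fun i _ => ?_
    rw [Finset.card_filter]
  have h2 : ∀ i : Fin n, (Finset.univ.filter fun j : Fin n => ss J (i, j) < ss J p).card =
      if (i : ℕ) / 2 < β then n else if (i : ℕ) = 2 * β then min n ((o + 1) / 2) else
      if (i : ℕ) = 2 * β + 1 then min n ((o - 2 * jv J β) / 2) else 0 := by
    intro i
    split_ifs with c1 c2 c3
    · have : (Finset.univ.filter fun j : Fin n => ss J (i, j) < ss J p) = Finset.univ := by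
        ext j
        simp only [Finset.mem_filter, Finset.mem_univ, true_and, iff_true]
        rw [ss_lt]; left; exact c1
      rw [this]; simp
    · have : (Finset.univ.filter fun j : Fin n => ss J (i, j) < ss J p) =
          (Finset.univ.filter fun j : Fin n => 0 + 2 * (j : ℕ) < o) := by
        ext j
        simp only [Finset.mem_filter, Finset.mem_univ, true_and]
        rw [ss_lt]
        have e1 : off J (i : ℕ) = 0 := by
          have : (i : ℕ) % 2 = 0 := by omega
          simp [off, this]
        simp only [e1]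
        omega
      rw [this, card_fin_lt]; simp
    · have : (Finset.univ.filter fun j : Fin n => ss J (i, j) < ss J p) =
          (Finset.univ.filter fun j : Fin n => (2 * jv J β + 1) + 2 * (j : ℕ) < o) := by
        ext j
        simp only [Finset.mem_filter, Finset.mem_univ, true_and]
        rw [ss_lt]
        have e1 : off J (i : ℕ) = 2 * jv J β + 1 := by
          have h2 : (i : ℕ) % 2 = 1 := by omega
          have h3 : (i : ℕ) / 2 = β := by omega
          simp [off, h2, h3]
        simp only [e1]
        omega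
      rw [this, card_fin_lt]
      congr 1
      omega
    · have : (Finset.univ.filter fun j : Fin n => ss J (i, j) < ss J p) = ∅ := by
        ext j
        simp only [Finset.mem_filter, Finset.mem_univ, true_and, Finset.notMem_empty, iff_false]
        rw [ss_lt]
        push_neg
        constructor
        · show β ≤ (i : ℕ) / 2
          omega
        · intro h; exfalso
          have h : (i : ℕ) / 2 = β := h
          omega
      rw [this]; simp
  rw [h1, Finset.sum_congr rfl fun i _ => h2 i]
  rw [← Finset.sum_range (fun i => if i / 2 < β then n else if i = 2 * β then min n ((o + 1) / 2) else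
      if i = 2 * β + 1 then min n ((o - 2 * jv J β) / 2) else 0)]
  rw [sum_block n β n _ _ hlt]

/-- the shift of a block can be read off from the label found at a middle rank of this block -/
lemma shift_of_rank (hBn : B = n / 2) (hT : T ≤ n) (J : Fin B → Fin T) (p : Fin n × Fin n)
    (β : Fin B) (r : ℕ) (hr : T ≤ r) (hr' : r < 2 * n - T)
    (h : rk J p = 2 * (β : ℕ) * n + r) :
    (J β : ℕ) = if (p.1 : ℕ) % 2 = 0 then 2 * (p.2 : ℕ) - r else r - 2 * (p.2 : ℕ) - 1 := by
  rw [rk_eq] at h
  have hβ := β.2
  have hp1 := p.1.2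
  have hp2 := p.2.2
  have hJ := (J β).2
  set β' := (p.1 : ℕ) / 2 with hβ'
  set a := min n ((off J p.1 + 2 * (p.2 : ℕ) + 1) / 2) with ha
  set b := (if 2 * β' + 1 < n then
        min n ((off J p.1 + 2 * (p.2 : ℕ) - 2 * jv J β') / 2) else 0) with hb
  have hoff : off J (p.1 : ℕ) = if (p.1 : ℕ) % 2 = 1 then 2 * jv J β' + 1 else 0 := rfl
  have hbn : b < n ∨ a < n := by
    rcases Nat.mod_two_eq_zero_or_one p.1 with h0 | h0
    · right
      rw [ha, hoff, h0]
      simp only [zero_ne_one, if_false]
      omega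
    · left
      rw [hb, hoff, h0]
      simp only [if_true]
      split_ifs <;> omega
  have hale : a ≤ n := min_le_left _ _
  have hble : b ≤ n := by rw [hb]; split_ifs <;> omega
  have hblock : β' = (β : ℕ) := by
    rcases lt_trichotomy β' (β : ℕ) with h' | h' | h'
    · exfalso
      have : 2 * β' * n + 2 * n ≤ 2 * (β : ℕ) * n := by
        have : β' + 1 ≤ (β : ℕ) := h'
        nlinarith
      omega
    · exact h'
    · exfalso
      have : 2 * (β : ℕ) * n + 2 * n ≤ 2 * β' * n := by
        have : (β : ℕ) + 1 ≤ β' := h'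
        nlinarith
      omega
  have hjv : jv J β' = (J β : ℕ) := by
    rw [hblock]; simp [jv, hβ]
  rw [hjv] at hoff
  rw [hblock] at h
  have hcond : 2 * β' + 1 < n := by omega
  rw [if_pos hcond, hjv] at hb
  rcases Nat.mod_two_eq_zero_or_one p.1 with h0 | h0
  · rw [h0] at hoff ⊢
    simp only [zero_ne_one, if_false] at hoff
    simp only [if_true]
    rw [hoff] at ha hb
    omega
  · rw [h0] at hoff ⊢
    simp only [if_true] at hoff
    simp only [one_ne_zero, if_false]
    rw [hoff] at ha hb
    omega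

/-- in a sorted list the rank is the position -/
lemma rank_pos {N : ℕ} (f : Fin N → Gm) (hf : StrictMono f) (σ : Fin N ≃ Fin n × Fin n)
    (J : Fin B → Fin T) (h : ∀ k, f k = ss J (σ k)) (k : Fin N) : rk J (σ k) = k := by
  classical
  have : (Finset.univ.filter fun q : Fin n × Fin n => ss J q < ss J (σ k)) =
      (Finset.Iio k).map σ.toEmbedding := by
    ext q
    simp only [Finset.mem_filter, Finset.mem_univ, true_and, Finset.mem_map_equiv,
      Finset.mem_Iio]
    rw [← hf.lt_iff_lt, h, h, Equiv.apply_symm_apply]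
  rw [rk, this, Finset.card_map, Fin.card_Iio]

end

end Pool.Agent.Lib_MP_852c2d_lc
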