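import Pool.Agent.Lib_MP_852c2d_lc.LexEval

/-!
# The structure of the values computed by a circuit on a family of symbolic inputs
-/

namespace Pool.Agent.Lib_MP_852c2d_lc

attribute [-instance] Pi.instLTLexForall

/-- the shift used in block `β` -/
def jv {B T : ℕ} (J : Fin B → Fin T) (β : ℕ) : ℕ := if h : β < B then (J ⟨β, h⟩ : ℕ) else 0

/-- parity as a real number -/
noncomputable def od (i : ℕ) : ℝ := if i % 2 = 1 then 1 else 0

/-- the shift plus one half -/
noncomputable def sh {B T : ℕ} (J : Fin B → Fin T) (β : ℕ) : ℝ := jv J β + 1 / 2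

/-- symbolic `x i` -/
noncomputable def sx {n B T : ℕ} (J : Fin B → Fin T) (i : Fin n) : Gm :=
  vec ![1, 0, (((i : ℕ) / 2 : ℕ) : ℝ), (((i : ℕ) / 2 : ℕ) : ℝ) ^ 2, od i * sh J ((i : ℕ) / 2),
    od i, 0, 0]

/-- symbolic `y j` -/
noncomputable def sy {n : ℕ} (j : Fin n) : Gm := vec ![0, 1, 0, 0, (j : ℕ), 0, ((j : ℕ) : ℝ) ^ 2, 0]

/-- symbolic constant -/
def sc (c : ℝ) : Gm := vec ![0, 0, 0, 0, 0, 0, 0, c]

lemma od_sq (i : ℕ) : od i ^ 2 = od i := by unfold od; split_ifs <;> simp

lemma sh_pos {B T : ℕ} (J : Fin B → Fin T) (β : ℕ) : 0 < sh J β := by unfold sh; positivity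

section
variable {n B T : ℕ}

/-- `p` is, up to a constant, the combination of the `x i` and `y j` with the nonnegative
coefficients `a`, `b` -/
structure Rep (J : Fin B → Fin T) (p : Gm) (a b : Fin n → ℝ) : Prop where
  ha : ∀ i, 0 ≤ a i
  hb : ∀ j, 0 ≤ b j
  h0 : co p 0 = ∑ i, a i
  h1 : co p 1 = ∑ j, b j
  h2 : co p 2 = ∑ i, a i * (((i : ℕ) / 2 : ℕ) : ℝ)
  h3 : co p 3 = ∑ i, a i * (((i : ℕ) / 2 : ℕ) : ℝ) ^ 2
  h4 : co p 4 = ∑ i, a i * (od i * sh J ((i : ℕ) / 2)) + ∑ j, b j * ((j : ℕ) : ℝ)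
  h5 : co p 5 = ∑ i, a i * od i
  h6 : co p 6 = ∑ j, b j * ((j : ℕ) : ℝ) ^ 2

/-- `p` has the coordinates of a combination of `x l.1`, `y l.2` and a constant -/
structure Pre (J : Fin B → Fin T) (l : Fin n × Fin n) (p : Gm) : Prop where
  h2 : co p 2 = co p 0 * (((l.1 : ℕ) / 2 : ℕ) : ℝ)
  h3 : co p 3 = co p 0 * (((l.1 : ℕ) / 2 : ℕ) : ℝ) ^ 2
  h4 : co p 4 = co p 0 * (od l.1 * sh J ((l.1 : ℕ) / 2)) + co p 1 * ((l.2 : ℕ) : ℝ)
  h5 : co p 5 = co p 0 * od l.1
  h6 : co p 6 = co p 1 * ((l.2 : ℕ) : ℝ) ^ 2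

/-- `p` is a combination of `x l.1`, `y l.2`, both with positive coefficient, and a constant -/
def Single (J : Fin B → Fin T) (l : Fin n × Fin n) (p : Gm) : Prop :=
  0 < co p 0 ∧ 0 < co p 1 ∧ Pre J l p

lemma Rep.add {J : Fin B → Fin T} {p q : Gm} {a b a' b' : Fin n → ℝ} (hp : Rep J p a b)
    (hq : Rep J q a' b') : Rep J (p + q) (fun i => a i + a' i) (fun j => b j + b' j) where
  ha i := add_nonneg (hp.ha i) (hq.ha i)
  hb i := add_nonneg (hp.hb i) (hq.hb i)
  h0 := by rw [co_add, hp.h0, hq.h0, Finset.sum_add_distrib]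
  h1 := by rw [co_add, hp.h1, hq.h1, Finset.sum_add_distrib]
  h2 := by rw [co_add, hp.h2, hq.h2, ← Finset.sum_add_distrib]; simp only [add_mul]
  h3 := by rw [co_add, hp.h3, hq.h3, ← Finset.sum_add_distrib]; simp only [add_mul]
  h4 := by
    rw [co_add, hp.h4, hq.h4]
    simp only [add_mul, Finset.sum_add_distrib]
    ring
  h5 := by rw [co_add, hp.h5, hq.h5, ← Finset.sum_add_distrib]; simp only [add_mul]
  h6 := by rw [co_add, hp.h6, hq.h6, ← Finset.sum_add_distrib]; simp only [add_mul]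

lemma Rep.smul {J : Fin B → Fin T} {p : Gm} {a b : Fin n → ℝ} (hp : Rep J p a b) {c : ℝ}
    (hc : 0 ≤ c) : Rep J (c • p) (fun i => c * a i) (fun j => c * b j) where
  ha i := mul_nonneg hc (hp.ha i)
  hb i := mul_nonneg hc (hp.hb i)
  h0 := by rw [co_smul, hp.h0, Finset.mul_sum]
  h1 := by rw [co_smul, hp.h1, Finset.mul_sum]
  h2 := by rw [co_smul, hp.h2, Finset.mul_sum]; simp only [mul_assoc]
  h3 := by rw [co_smul, hp.h3, Finset.mul_sum]; simp only [mul_assoc]
  h4 := by
    rw [co_smul, hp.h4, mul_add, Finset.mul_sum, Finset.mul_sum]; simp only [mul_assoc]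
  h5 := by rw [co_smul, hp.h5, Finset.mul_sum]; simp only [mul_assoc]
  h6 := by rw [co_smul, hp.h6, Finset.mul_sum]; simp only [mul_assoc]

lemma rep_x (J : Fin B → Fin T) (i : Fin n) :
    Rep J (sx J i) (fun k => if k = i then 1 else 0) (fun _ => 0) where
  ha k := by split_ifs <;> simp
  hb _ := le_refl _
  h0 := by simp [sx]
  h1 := by simp [sx]
  h2 := by simp [sx]
  h3 := by simp [sx]
  h4 := by simp [sx]
  h5 := by simp [sx]
  h6 := by simp [sx]

lemma rep_y (J : Fin B → Fin T) (j : Fin n) :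
    Rep J (sy j) (fun _ => 0) (fun k => if k = j then 1 else 0) where
  ha _ := le_refl _
  hb k := by split_ifs <;> simp
  h0 := by simp [sy]
  h1 := by simp [sy]
  h2 := by simp [sy]
  h3 := by simp [sy]
  h4 := by simp [sy]
  h5 := by simp [sy]
  h6 := by simp [sy]

lemma rep_c (J : Fin B → Fin T) (c : ℝ) : Rep (n := n) J (sc c) (fun _ => 0) (fun _ => 0) where
  ha _ := le_refl _
  hb _ := le_refl _
  h0 := by simp [sc]
  h1 := by simp [sc]
  h2 := by simp [sc]
  h3 := by simp [sc]
  h4 := by simp [sc]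
  h5 := by simp [sc]
  h6 := by simp [sc]

/-- the variance functional of block `β` -/
def Qf (β : ℕ) (p : Gm) : ℝ := co p 3 - 2 * β * co p 2 + (β : ℝ) ^ 2 * co p 0

lemma Rep.Q_nonneg {J : Fin B → Fin T} {p : Gm} {a b : Fin n → ℝ} (hp : Rep J p a b) (β : ℕ) :
    0 ≤ Qf β p := by
  have : Qf β p = ∑ i, a i * ((((i : ℕ) / 2 : ℕ) : ℝ) - β) ^ 2 := by
    rw [Qf, hp.h3, hp.h2, hp.h0, Finset.mul_sum, Finset.mul_sum, ← Finset.sum_sub_distrib,
      ← Finset.sum_add_distrib]
    exact Finset.sum_congr rfl fun i _ => by ring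
  rw [this]
  exact Finset.sum_nonneg fun i _ => mul_nonneg (hp.ha i) (sq_nonneg _)

lemma Rep.nonneg0 {J : Fin B → Fin T} {p : Gm} {a b : Fin n → ℝ} (hp : Rep J p a b) :
    0 ≤ co p 0 := by rw [hp.h0]; exact Finset.sum_nonneg fun i _ => hp.ha i

lemma Rep.nonneg1 {J : Fin B → Fin T} {p : Gm} {a b : Fin n → ℝ} (hp : Rep J p a b) :
    0 ≤ co p 1 := by rw [hp.h1]; exact Finset.sum_nonneg fun i _ => hp.hb i

lemma var0 (A A' f : Fin n → ℝ) (m : ℝ) (hA : ∀ i, 0 ≤ A i) (hA' : ∀ i, 0 ≤ A' i)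
    (h : ∑ i, (A i + A' i) * f i ^ 2 - 2 * m * ∑ i, (A i + A' i) * f i +
      m ^ 2 * ∑ i, (A i + A' i) = 0) : ∀ i, A i = 0 ∨ f i = m := by
  have h1 : ∑ i, (A i + A' i) * (f i - m) ^ 2 = 0 := by
    rw [← h, Finset.mul_sum, Finset.mul_sum, ← Finset.sum_sub_distrib, ← Finset.sum_add_distrib]
    exact Finset.sum_congr rfl fun i _ => by ring
  rw [Finset.sum_eq_zero_iff_of_nonneg
    (fun i _ => mul_nonneg (add_nonneg (hA i) (hA' i)) (sq_nonneg _))] at h1
  intro i
  rcases mul_eq_zero.mp (h1 i (Finset.mem_univ i)) with h2 | h2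
  · left; have := hA i; have := hA' i; linarith
  · right; have := pow_eq_zero_iff (two_ne_zero) |>.mp h2; linarith

/-- a combination with a single label can only be split into such combinations -/
lemma rigid {J : Fin B → Fin T} {l : Fin n × Fin n} {p q : Gm} {a b a' b' : Fin n → ℝ}
    (hp : Rep J p a b) (hq : Rep J q a' b') (h : Pre J l (p + q)) : Pre J l p := by
  have hs := hp.add hq
  have k1 := var0 a a' (fun i : Fin n => (((i : ℕ) / 2 : ℕ) : ℝ)) (((l.1 : ℕ) / 2 : ℕ) : ℝ)
    hp.ha hq.ha (by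
      rw [← hs.h3, ← hs.h2, ← hs.h0, h.h3, h.h2]; ring)
  have k1' := var0 a' a (fun i : Fin n => (((i : ℕ) / 2 : ℕ) : ℝ)) (((l.1 : ℕ) / 2 : ℕ) : ℝ)
    hq.ha hp.ha (by
      simp only [add_comm (a' _) (a _)]
      rw [← hs.h3, ← hs.h2, ← hs.h0, h.h3, h.h2]; ring)
  have k2 := var0 a a' (fun i : Fin n => od i) (od l.1) hp.ha hq.ha (by
      simp only [od_sq]
      rw [← hs.h5, ← hs.h0, h.h5]
      linear_combination (-2 * co (p + q) 0) * od_sq l.1)
  have k2' := var0 a' a (fun i : Fin n => od i) (od l.1) hq.ha hp.ha (by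
      simp only [add_comm (a' _) (a _)]
      simp only [od_sq]
      rw [← hs.h5, ← hs.h0, h.h5]
      linear_combination (-2 * co (p + q) 0) * od_sq l.1)
  have hx : ∀ i, (a i + a' i) * (od i * sh J ((i : ℕ) / 2)) =
      (a i + a' i) * (od l.1 * sh J ((l.1 : ℕ) / 2)) := by
    intro i
    by_cases hz : a i = 0 ∧ a' i = 0
    · rw [hz.1, hz.2]; simp
    · have e1 : (((i : ℕ) / 2 : ℕ) : ℝ) = (((l.1 : ℕ) / 2 : ℕ) : ℝ) := by
        rcases k1 i with h1 | h1
        · rcases k1' i with h2 | h2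
          · exact absurd ⟨h1, h2⟩ hz
          · exact h2
        · exact h1
      have e1' : (i : ℕ) / 2 = (l.1 : ℕ) / 2 := by exact_mod_cast e1
      have e2 : od i = od l.1 := by
        rcases k2 i with h1 | h1
        · rcases k2' i with h2 | h2
          · exact absurd ⟨h1, h2⟩ hz
          · exact h2
        · exact h1
      rw [e1', e2]
  have hy : ∑ j : Fin n, (b j + b' j) * ((j : ℕ) : ℝ) = co (p + q) 1 * ((l.2 : ℕ) : ℝ) := by
    have h4 := hs.h4
    rw [h.h4, Finset.sum_congr rfl fun i _ => hx i, ← Finset.sum_mul, ← hs.h0] at h4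
    linarith
  have k3 := var0 b b' (fun j : Fin n => ((j : ℕ) : ℝ)) ((l.2 : ℕ) : ℝ) hp.hb hq.hb (by
      rw [← hs.h6, hy, ← hs.h1, h.h6]; ring)
  refine ⟨?_, ?_, ?_, ?_, ?_⟩
  · rw [hp.h2, hp.h0, Finset.sum_mul]
    refine Finset.sum_congr rfl fun i _ => ?_
    rcases k1 i with h1 | h1
    · rw [h1]; simp
    · rw [h1]
  · rw [hp.h3, hp.h0, Finset.sum_mul]
    refine Finset.sum_congr rfl fun i _ => ?_
    rcases k1 i with h1 | h1
    · rw [h1]; simp
    · rw [h1]
  · rw [hp.h4, hp.h0, hp.h1, Finset.sum_mul, Finset.sum_mul]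
    congr 1
    · refine Finset.sum_congr rfl fun i _ => ?_
      rcases k1 i with h1 | h1
      · rw [h1]; simp
      rcases k2 i with h2 | h2
      · rw [h2]; simp
      have e1' : (i : ℕ) / 2 = (l.1 : ℕ) / 2 := by exact_mod_cast h1
      have h2 : od i = od l.1 := h2
      rw [h2, e1']
    · refine Finset.sum_congr rfl fun i _ => ?_
      rcases k3 i with h1 | h1
      · rw [h1]; simp
      · rw [h1]
  · rw [hp.h5, hp.h0, Finset.sum_mul]
    refine Finset.sum_congr rfl fun i _ => ?_
    rcases k2 i with h1 | h1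
    · rw [h1]; simp
    · rw [h1]
  · rw [hp.h6, hp.h1, Finset.sum_mul]
    refine Finset.sum_congr rfl fun i _ => ?_
    rcases k3 i with h1 | h1
    · rw [h1]; simp
    · rw [h1]

lemma od_inj {i j : ℕ} (h : od i = od j) : i % 2 = j % 2 := by
  unfold od at h
  rcases Nat.mod_two_eq_zero_or_one i with h0 | h0 <;>
    rcases Nat.mod_two_eq_zero_or_one j with h1 | h1 <;> simp [h0, h1] at h ⊢

/-- some coordinates determine the label -/
lemma label_of_co {J J' : Fin B → Fin T} {l l' : Fin n × Fin n} {p p' : Gm} (h : Single J l p)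
    (h' : Single J' l' p') (e0 : co p 0 = co p' 0) (e1 : co p 1 = co p' 1)
    (e2 : co p 2 = co p' 2) (e5 : co p 5 = co p' 5) (e6 : co p 6 = co p' 6) : l = l' := by
  obtain ⟨p0, p1, hp⟩ := h
  obtain ⟨p0', p1', hp'⟩ := h'
  have k2 : (((l.1 : ℕ) / 2 : ℕ) : ℝ) = (((l'.1 : ℕ) / 2 : ℕ) : ℝ) := by
    rw [hp.h2, hp'.h2, ← e0] at e2
    exact mul_left_cancel₀ p0.ne' e2
  have k2 : (l.1 : ℕ) / 2 = (l'.1 : ℕ) / 2 := by exact_mod_cast k2
  have k5 : od l.1 = od l'.1 := by
    rw [hp.h5, hp'.h5, ← e0] at e5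
    exact mul_left_cancel₀ p0.ne' e5
  have k5 := od_inj k5
  have k6 : ((l.2 : ℕ) : ℝ) ^ 2 = ((l'.2 : ℕ) : ℝ) ^ 2 := by
    rw [hp.h6, hp'.h6, ← e1] at e6
    exact mul_left_cancel₀ p1.ne' e6
  have k6 : ((l.2 : ℕ) : ℝ) = ((l'.2 : ℕ) : ℝ) := by
    exact (pow_left_inj₀ (by positivity) (by positivity) two_ne_zero).mp k6
  have k6 : (l.2 : ℕ) = l'.2 := by exact_mod_cast k6
  exact Prod.ext (Fin.ext (by omega)) (Fin.ext k6)

/-- the symbolic run -/
noncomputable abbrev run (C : Circuit n) (J : Fin B → Fin T) (t : Fin C.size) : Gm :=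
  C.val sc (sx J) sy t

/-- Whenever the value of the node `t` is single with label `l` for the input `J`, the set `P J`
consists of minimum and maximum gates whose value is single with the same label; `P J` is the set
of such gates passed on the way back to the gate where `x` and `y` part were added. The weights
`W` are a Kraft type certificate for the number of these gates. -/
def Track (B T : ℕ) (C : Circuit n) (t : Fin C.size) : Prop :=
  ∃ (P : (Fin B → Fin T) → Finset (Fin C.size)) (W : Fin n × Fin n → ℝ),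
    (∀ l, 0 ≤ W l) ∧ ∑ l, W l ≤ 1 ∧
    ∀ J l, Single J l (run C J t) →
      (∀ g ∈ P J, g ≤ t ∧ (C.gate g).isMinMax ∧ Single J l (run C J g)) ∧
      (1 / 2 : ℝ) ^ (P J).card ≤ W l

/-- What is known about every node. -/
structure Info (B T : ℕ) (C : Circuit n) (t : Fin C.size) : Prop where
  rep : ∀ J : Fin B → Fin T, ∃ a b : Fin n → ℝ, Rep J (run C J t) a b
  deg : ∀ J J' : Fin B → Fin T, ∀ i : Fin 8, (i : ℕ) < 4 → co (run C J t) i = co (run C J' t) i
  pure0 : ∀ J J' : Fin B → Fin T, co (run C J t) 0 = 0 → run C J t = run C J' t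
  pure1 : ∀ (β : ℕ) (J₀ : Fin B → Fin T), co (run C J₀ t) 1 = 0 → Qf β (run C J₀ t) = 0 →
    ∃ o c : ℝ, ∀ J : Fin B → Fin T, co (run C J t) 5 = o ∧ co (run C J t) 4 = o * sh J β ∧
      co (run C J t) 6 = 0 ∧ co (run C J t) 7 = c
  track : Track B T C t

variable {C : Circuit n}

lemma Track.copy {t u : Fin C.size} (h : Track B T C u) (hu : u ≤ t)
    (he : ∀ (J : Fin B → Fin T) (l : Fin n × Fin n), Single J l (run C J t) →
      Single J l (run C J u)) :
    Track B T C t := by
  obtain ⟨P, W, hW, hW1, H⟩ := h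
  refine ⟨P, W, hW, hW1, fun J l hs => ?_⟩
  obtain ⟨h1, h2⟩ := H J l (he J l hs)
  exact ⟨fun g hg => ⟨(h1 g hg).1.trans hu, (h1 g hg).2⟩, h2⟩

lemma Info.copy {t u : Fin C.size} (h : Info B T C u) (hu : u ≤ t)
    (he : ∀ J : Fin B → Fin T, run C J t = run C J u) : Info B T C t where
  rep J := by rw [he J]; exact h.rep J
  deg J J' := by rw [he J, he J']; exact h.deg J J'
  pure0 J J' := by rw [he J, he J']; exact h.pure0 J J'
  pure1 β J₀ := by
    intro h1 h2
    rw [he J₀] at h1 h2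
    obtain ⟨o, c, H⟩ := h.pure1 β J₀ h1 h2
    exact ⟨o, c, fun J => by rw [he J]; exact H J⟩
  track := h.track.copy hu fun J l hs => by rw [he J] at hs; exact hs

/-- two tracked nodes are merged by a minimum or maximum gate -/
lemma Track.merge {t u v : Fin C.size} (hu : Track B T C u) (hv : Track B T C v) (hut : u < t)
    (hvt : v < t) (hm : (C.gate t).isMinMax)
    (h1 : ∀ J : Fin B → Fin T, run C J t = run C J u ∨ run C J t = run C J v) :
    Track B T C t := by
  classical
  obtain ⟨P, W, hW, hW1, H⟩ := hu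
  obtain ⟨P', W', hW', hW1', H'⟩ := hv
  refine ⟨fun J => if run C J t = run C J u then insert t (P J) else insert t (P' J),
    fun l => (W l + W' l) / 2, fun l => by have := hW l; have := hW' l; positivity, ?_,
    fun J l hs => ?_⟩
  · rw [← Finset.sum_div, Finset.sum_add_distrib]
    linarith
  by_cases hJ : run C J t = run C J u
  · have hs' : Single J l (run C J u) := by rw [← hJ]; exact hs
    obtain ⟨k1, k2⟩ := H J l hs'
    dsimp only
    rw [if_pos hJ]
    refine ⟨fun g hg => ?_, ?_⟩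
    · rcases Finset.mem_insert.mp hg with rfl | hg
      · exact ⟨le_refl _, hm, hs⟩
      · obtain ⟨a1, a2, a3⟩ := k1 g hg
        exact ⟨a1.trans hut.le, a2, a3⟩
    · have hnot : t ∉ P J := fun ht => absurd (k1 t ht).1 (not_le.mpr hut)
      rw [Finset.card_insert_of_notMem hnot, pow_succ]
      have := hW' l
      linarith
  · have hJ' : run C J t = run C J v := (h1 J).resolve_left hJ
    have hs' : Single J l (run C J v) := by rw [← hJ']; exact hs
    obtain ⟨k1, k2⟩ := H' J l hs'
    dsimp only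
    rw [if_neg hJ]
    refine ⟨fun g hg => ?_, ?_⟩
    · rcases Finset.mem_insert.mp hg with rfl | hg
      · exact ⟨le_refl _, hm, hs⟩
      · obtain ⟨a1, a2, a3⟩ := k1 g hg
        exact ⟨a1.trans hvt.le, a2, a3⟩
    · have hnot : t ∉ P' J := fun ht => absurd (k1 t ht).1 (not_le.mpr hvt)
      rw [Finset.card_insert_of_notMem hnot, pow_succ]
      have := hW l
      linarith

lemma lt_of_four {p q : Gm} (i : Fin 8) (h0 : ∀ j < i, co p j = co q j) (h : co p i < co q i) :
    p < q := lt_iff.mpr ⟨i, h0, h⟩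

/-- minimum and maximum gates -/
lemma Info.sel {t u v : Fin C.size} (hu : Info B T C u) (hv : Info B T C v) (hut : u < t)
    (hvt : v < t) (hm : (C.gate t).isMinMax)
    (h1 : ∀ J : Fin B → Fin T, run C J t = run C J u ∨ run C J t = run C J v)
    (h2 : (∀ J : Fin B → Fin T, run C J u ≤ run C J v) →
      (∀ J : Fin B → Fin T, run C J t = run C J u) ∨ (∀ J : Fin B → Fin T, run C J t = run C J v))
    (h3 : (∀ J : Fin B → Fin T, run C J v ≤ run C J u) →
      (∀ J : Fin B → Fin T, run C J t = run C J u) ∨ (∀ J : Fin B → Fin T, run C J t = run C J v)) :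
    Info B T C t := by
  have hcopy : ((∀ J : Fin B → Fin T, run C J t = run C J u) ∨
      (∀ J : Fin B → Fin T, run C J t = run C J v)) → Info B T C t := by
    rintro (h | h)
    · exact hu.copy hut.le h
    · exact hv.copy hvt.le h
  by_cases hdeg : ∀ J : Fin B → Fin T, ∀ i : Fin 8, (i : ℕ) < 4 →
      co (run C J u) i = co (run C J v) i
  · have hdt : ∀ J : Fin B → Fin T, ∀ i : Fin 8, (i : ℕ) < 4 →
        co (run C J t) i = co (run C J u) i ∧ co (run C J t) i = co (run C J v) i := by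
      intro J i hi
      rcases h1 J with h | h
      · rw [h]; exact ⟨rfl, hdeg J i hi⟩
      · rw [h]; exact ⟨(hdeg J i hi).symm, rfl⟩
    refine ⟨fun J => ?_, fun J J' i hi => ?_, fun J J' h0 => ?_, fun β J₀ k1 kQ => ?_,
      hu.track.merge hv.track hut hvt hm h1⟩
    · rcases h1 J with h | h
      · rw [h]; exact hu.rep J
      · rw [h]; exact hv.rep J
    · rw [(hdt J i hi).1, (hdt J' i hi).1, hu.deg J J' i hi]
    · have hu0 : co (run C J u) 0 = 0 := by rw [← (hdt J 0 (by simp)).1]; exact h0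
      have hv0 : co (run C J v) 0 = 0 := by rw [← (hdt J 0 (by simp)).2]; exact h0
      have eu := fun J' => hu.pure0 J J' hu0
      have evv := fun J' => hv.pure0 J J' hv0
      rcases le_total (run C J u) (run C J v) with h | h
      · rcases h2 (fun J' => by rw [← eu J', ← evv J']; exact h) with h' | h'
        · rw [h' J, h' J', eu J']
        · rw [h' J, h' J', evv J']
      · rcases h3 (fun J' => by rw [← eu J', ← evv J']; exact h) with h' | h'
        · rw [h' J, h' J', eu J']
        · rw [h' J, h' J', evv J']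
    · have hQu : Qf β (run C J₀ u) = 0 := by
        rw [← kQ, Qf, Qf, (hdt J₀ 3 (by simp)).1, (hdt J₀ 2 (by simp)).1, (hdt J₀ 0 (by simp)).1]
      have hQv : Qf β (run C J₀ v) = 0 := by
        rw [← kQ, Qf, Qf, (hdt J₀ 3 (by simp)).2, (hdt J₀ 2 (by simp)).2, (hdt J₀ 0 (by simp)).2]
      have k1u : co (run C J₀ u) 1 = 0 := by rw [← (hdt J₀ 1 (by simp)).1]; exact k1
      have k1v : co (run C J₀ v) 1 = 0 := by rw [← (hdt J₀ 1 (by simp)).2]; exact k1
      obtain ⟨o, c, H⟩ := hu.pure1 β J₀ k1u hQu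
      obtain ⟨o', c', H'⟩ := hv.pure1 β J₀ k1v hQv
      have hcmp : (∀ J : Fin B → Fin T, run C J u ≤ run C J v) ∨
          (∀ J : Fin B → Fin T, run C J v ≤ run C J u) := by
        rcases lt_trichotomy o o' with h | h | h
        · left; intro J
          refine (lt_of_four 4 (fun j hj => hdeg J j hj) ?_).le
          rw [(H J).2.1, (H' J).2.1]
          exact mul_lt_mul_of_pos_right h (sh_pos J β)
        · have h6 : ∀ J : Fin B → Fin T, ∀ j : Fin 8, j < 7 → co (run C J u) j = co (run C J v) j := by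
            intro J j hj
            have hj' : (j : ℕ) < 7 := hj
            by_cases h4 : (j : ℕ) < 4
            · exact hdeg J j h4
            · obtain ⟨q1, q2, q3, -⟩ := H J
              obtain ⟨q1', q2', q3', -⟩ := H' J
              fin_cases j <;> simp at h4 hj' ⊢
              · show co _ 4 = co _ 4
                rw [q2, q2', h]
              · show co _ 5 = co _ 5
                rw [q1, q1', h]
              · show co _ 6 = co _ 6
                rw [q3, q3']
          rcases lt_trichotomy c c' with hc | hc | hc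
          · left; intro J
            refine (lt_of_four 7 (h6 J) ?_).le
            rw [(H J).2.2.2, (H' J).2.2.2]; exact hc
          · left; intro J
            refine le_of_eq (co_ext fun i => ?_)
            by_cases hi : i < 7
            · exact h6 J i hi
            · have : i = 7 := by
                have h' : ¬ (i : ℕ) < 7 := hi
                have := i.2
                exact Fin.ext (by show (i : ℕ) = 7; omega)
              rw [this, (H J).2.2.2, (H' J).2.2.2, hc]
          · right; intro J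
            refine (lt_of_four 7 (fun j hj => (h6 J j hj).symm) ?_).le
            rw [(H J).2.2.2, (H' J).2.2.2]; exact hc
        · right; intro J
          refine (lt_of_four 4 (fun j hj => (hdeg J j hj).symm) ?_).le
          rw [(H J).2.1, (H' J).2.1]
          exact mul_lt_mul_of_pos_right h (sh_pos J β)
      have hfin : ((∀ J : Fin B → Fin T, run C J t = run C J u) ∨
          (∀ J : Fin B → Fin T, run C J t = run C J v)) := by
        rcases hcmp with h | h
        · exact h2 h
        · exact h3 h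
      rcases hfin with h | h
      · exact ⟨o, c, fun J => by rw [h J]; exact H J⟩
      · exact ⟨o', c', fun J => by rw [h J]; exact H' J⟩
  · push_neg at hdeg
    obtain ⟨J₀, i₀, hi₀, hne⟩ := hdeg
    -- truncated vectors
    let U : Gm := vec fun i => if (i : ℕ) < 4 then co (run C J₀ u) i else 0
    let V : Gm := vec fun i => if (i : ℕ) < 4 then co (run C J₀ v) i else 0
    have hUV : U ≠ V := by
      intro h
      have := congrArg (fun f => co f i₀) h
      simp only [U, V, co_vec, hi₀, if_true] at this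
      exact hne this
    have key : ∀ (p q : (Fin B → Fin T) → Gm) (U V : Gm),
        (∀ J, ∀ i : Fin 8, (i : ℕ) < 4 → co (p J) i = co U i) →
        (∀ J, ∀ i : Fin 8, (i : ℕ) < 4 → co (q J) i = co V i) →
        (∀ i : Fin 8, ¬ (i : ℕ) < 4 → co U i = co V i) → U < V → ∀ J, p J ≤ q J := by
      intro p q U V hp hq hr hlt J
      obtain ⟨i, hi, hlt⟩ := lt_iff.mp hlt
      have hi4 : (i : ℕ) < 4 := by
        by_contra hcon
        rw [hr i hcon] at hlt
        exact lt_irrefl _ hlt
      refine (lt_of_four i (fun j hj => ?_) ?_).le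
      · have hj4 : (j : ℕ) < 4 := lt_trans hj hi4
        rw [hp J j hj4, hq J j hj4]; exact hi j hj
      · rw [hp J i hi4, hq J i hi4]; exact hlt
    have hU : ∀ J : Fin B → Fin T, ∀ i : Fin 8, (i : ℕ) < 4 → co (run C J u) i = co U i := by
      intro J i hi
      simp only [U, co_vec, hi, if_true]
      exact hu.deg J J₀ i hi
    have hV : ∀ J : Fin B → Fin T, ∀ i : Fin 8, (i : ℕ) < 4 → co (run C J v) i = co V i := by
      intro J i hi
      simp only [V, co_vec, hi, if_true]
      exact hv.deg J J₀ i hi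
    have hr : ∀ i : Fin 8, ¬ (i : ℕ) < 4 → co U i = co V i := by
      intro i hi
      simp only [U, V, co_vec, hi, if_false]
    rcases lt_or_gt_of_ne hUV with h | h
    · exact hcopy (h2 (key _ _ U V hU hV hr h))
    · exact hcopy (h3 (key _ _ V U hV hU (fun i hi => (hr i hi).symm) h))

end

end Pool.Agent.Lib_MP_852c2d_lc
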