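import Pool.Agent.Lib_MP_852c2d_lc.Defs

/-!
# Circuits without minimum and maximum gates, one for each order type
-/

namespace Pool.Agent.Lib_MP_852c2d_lc

section
variable {n : ℕ}

/-- the circuit that lists the sums in the order `σ` -/
def listCircuit (σ : Fin (n * n) → Fin n × Fin n) : Circuit n where
  size := 2 * n + n * n
  gate t := if h1 : (t : ℕ) < n then .x ⟨t, h1⟩ else if h2 : (t : ℕ) < 2 * n then
      .y ⟨(t : ℕ) - n, by omega⟩ else
      .add ⟨(σ ⟨(t : ℕ) - 2 * n, by have := t.2; omega⟩).1, by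
          have := (σ ⟨(t : ℕ) - 2 * n, by have := t.2; omega⟩).1.2; omega⟩
        ⟨n + (σ ⟨(t : ℕ) - 2 * n, by have := t.2; omega⟩).2, by
          have := (σ ⟨(t : ℕ) - 2 * n, by have := t.2; omega⟩).2.2; omega⟩
  out k := ⟨2 * n + k, by have := k.2; omega⟩

lemma listCircuit_minMax (σ : Fin (n * n) → Fin n × Fin n) : (listCircuit σ).minMax = 0 := by
  classical
  rw [Circuit.minMax, Finset.card_eq_zero, Finset.filter_eq_empty_iff]
  intro t _
  show ¬ Gate.isMinMax (dite _ _ _)
  split_ifs <;> simp [Gate.isMinMax]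

lemma listCircuit_x (σ : Fin (n * n) → Fin n × Fin n) (x y : Fin n → ℝ)
    (t : Fin (2 * n + n * n)) (i : Fin n) (h : (t : ℕ) = i) :
    (listCircuit σ).val id x y t = x i := by
  have h1 : (t : ℕ) < n := by rw [h]; exact i.2
  have hg : (listCircuit σ).gate t = .x ⟨t, h1⟩ := by
    simp only [listCircuit, dif_pos h1]
  rw [Circuit.val, hg]
  show x _ = x _
  congr 1
  exact Fin.ext h

lemma listCircuit_y (σ : Fin (n * n) → Fin n × Fin n) (x y : Fin n → ℝ)
    (t : Fin (2 * n + n * n)) (j : Fin n) (h : (t : ℕ) = n + j) :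
    (listCircuit σ).val id x y t = y j := by
  have hj := j.2
  have h1 : ¬ (t : ℕ) < n := by omega
  have h2 : (t : ℕ) < 2 * n := by omega
  have hg : (listCircuit σ).gate t = .y ⟨(t : ℕ) - n, by omega⟩ := by
    simp only [listCircuit, dif_neg h1, dif_pos h2]
  rw [Circuit.val, hg]
  show y _ = y _
  congr 1
  exact Fin.ext (by show (t : ℕ) - n = j; omega)

lemma listCircuit_out (σ : Fin (n * n) → Fin n × Fin n) (x y : Fin n → ℝ) (k : Fin (n * n)) :
    (listCircuit σ).val id x y ((listCircuit σ).out k) = x (σ k).1 + y (σ k).2 := by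
  have h1 : ¬ ((listCircuit σ).out k : ℕ) < n := by
    show ¬ (2 * n + (k : ℕ)) < n
    omega
  have h2 : ¬ ((listCircuit σ).out k : ℕ) < 2 * n := by
    show ¬ (2 * n + (k : ℕ)) < 2 * n
    omega
  have hk : (⟨((listCircuit σ).out k : ℕ) - 2 * n, by
      have := ((listCircuit σ).out k).2
      have h3 : (listCircuit σ).size = 2 * n + n * n := rfl
      omega⟩ : Fin (n * n)) = k := by
    apply Fin.ext
    show (2 * n + (k : ℕ)) - 2 * n = k
    omega
  rw [Circuit.val]
  have hg : (listCircuit σ).gate ((listCircuit σ).out k) =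
      .add ⟨(σ ⟨((listCircuit σ).out k : ℕ) - 2 * n, by
          have := ((listCircuit σ).out k).2
          have h3 : (listCircuit σ).size = 2 * n + n * n := rfl
          omega⟩).1, by
          have := (σ ⟨((listCircuit σ).out k : ℕ) - 2 * n, by
            have := ((listCircuit σ).out k).2
            have h3 : (listCircuit σ).size = 2 * n + n * n := rfl
            omega⟩).1.2
          omega⟩
        ⟨n + (σ ⟨((listCircuit σ).out k : ℕ) - 2 * n, by
          have := ((listCircuit σ).out k).2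
          have h3 : (listCircuit σ).size = 2 * n + n * n := rfl
          omega⟩).2, by
          have := (σ ⟨((listCircuit σ).out k : ℕ) - 2 * n, by
            have := ((listCircuit σ).out k).2
            have h3 : (listCircuit σ).size = 2 * n + n * n := rfl
            omega⟩).2.2
          omega⟩ := by
    show dite _ _ _ = _
    rw [dif_neg h1, dif_neg h2]
  rw [hg]
  dsimp only
  congr 1
  · refine (listCircuit_x σ x y _ (σ k).1 ?_)
    show ((σ ⟨((listCircuit σ).out k : ℕ) - 2 * n, _⟩).1 : ℕ) = _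
    rw [hk]
  · refine (listCircuit_y σ x y _ (σ k).2 ?_)
    show n + ((σ ⟨((listCircuit σ).out k : ℕ) - 2 * n, _⟩).2 : ℕ) = _
    rw [hk]

/-- coefficient vector of the difference of two sums -/
def cv (e : (Fin n × Fin n) × (Fin n × Fin n)) : Fin n ⊕ Fin n → ℝ
  | .inl i => (if i = e.2.1 then 1 else 0) - (if i = e.1.1 then 1 else 0)
  | .inr j => (if j = e.2.2 then 1 else 0) - (if j = e.1.2 then 1 else 0)

lemma cv_eval (x y : Fin n → ℝ) (e : (Fin n × Fin n) × (Fin n × Fin n)) :
    ∑ i, cv e i * Sum.elim x y i = (x e.2.1 + y e.2.2) - (x e.1.1 + y e.1.2) := by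
  rw [Fintype.sum_sum_type]
  simp only [cv, Sum.elim_inl, Sum.elim_inr, sub_mul, Finset.sum_sub_distrib, ite_mul, one_mul,
    zero_mul, Finset.sum_ite_eq', Finset.mem_univ, if_true]
  ring

/-- the order pattern of the sums -/
noncomputable def pat (x y : Fin n → ℝ) : Finset ((Fin n × Fin n) × (Fin n × Fin n)) := by
  classical exact Finset.univ.filter fun e => x e.1.1 + y e.1.2 ≤ x e.2.1 + y e.2.2

lemma mem_pat (x y : Fin n → ℝ) (e) : e ∈ pat x y ↔ x e.1.1 + y e.1.2 ≤ x e.2.1 + y e.2.2 := by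
  simp [pat]

/-- all order patterns -/
noncomputable def pats (n : ℕ) : Finset (Finset ((Fin n × Fin n) × (Fin n × Fin n))) := by
  classical exact Finset.univ.filter fun S => ∃ x y : Fin n → ℝ, S = pat x y

lemma shattered_card {s : Finset ((Fin n × Fin n) × (Fin n × Fin n))}
    (h : (pats n).Shatters s) : s.card ≤ 2 * n := by
  classical
  by_contra hcon
  have hli : ¬ LinearIndependent ℝ (fun e : s => cv (e : (Fin n × Fin n) × (Fin n × Fin n))) := by
    intro hli
    have := hli.fintype_card_le_finrank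
    simp only [Fintype.card_coe, Module.finrank_fintype_fun_eq_card, Fintype.card_sum,
      Fintype.card_fin] at this
    omega
  rw [Fintype.not_linearIndependent_iff] at hli
  obtain ⟨g, hg, e₀, he₀⟩ := hli
  obtain ⟨g, hg, e₀, he₀⟩ : ∃ g : s → ℝ,
      ∑ e : s, g e • cv (e : (Fin n × Fin n) × (Fin n × Fin n)) = 0 ∧ ∃ e, 0 < g e := by
    rcases lt_or_gt_of_ne he₀ with h0 | h0
    · refine ⟨fun e => -g e, ?_, e₀, by linarith⟩
      simp only [neg_smul, Finset.sum_neg_distrib, hg, neg_zero]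
    · exact ⟨g, hg, e₀, h0⟩
  obtain ⟨S, hS, hsS⟩ := h (t := s.filter fun e => if he : e ∈ s then g ⟨e, he⟩ ≤ 0 else False)
    (Finset.filter_subset _ _)
  obtain ⟨x, y, rfl⟩ : ∃ x y : Fin n → ℝ, S = pat x y := by simpa [pats] using hS
  have hmem : ∀ e : s, (e : (Fin n × Fin n) × (Fin n × Fin n)) ∈ pat x y ↔ g e ≤ 0 := by
    intro e
    have h1 : (e : (Fin n × Fin n) × (Fin n × Fin n)) ∈ s ∩ pat x y ↔
        (e : (Fin n × Fin n) × (Fin n × Fin n)) ∈
          s.filter fun e => if he : e ∈ s then g ⟨e, he⟩ ≤ 0 else False := by rw [hsS]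
    simpa [e.2] using h1
  have hsum : ∑ e : s, g e * ((x (e : (Fin n × Fin n) × (Fin n × Fin n)).2.1 +
      y (e : (Fin n × Fin n) × (Fin n × Fin n)).2.2) -
      (x (e : (Fin n × Fin n) × (Fin n × Fin n)).1.1 +
        y (e : (Fin n × Fin n) × (Fin n × Fin n)).1.2)) = 0 := by
    have h1 : ∑ i, (∑ e : s, g e • cv (e : (Fin n × Fin n) × (Fin n × Fin n))) i *
        Sum.elim x y i = 0 := by
      rw [hg]; simp
    rw [← h1]
    simp only [Finset.sum_apply, Pi.smul_apply, smul_eq_mul, Finset.sum_mul]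
    rw [Finset.sum_comm]
    refine Finset.sum_congr rfl fun e _ => ?_
    rw [← cv_eval, Finset.mul_sum]
    exact Finset.sum_congr rfl fun i _ => by ring
  have hle : ∀ e : s, g e * ((x (e : (Fin n × Fin n) × (Fin n × Fin n)).2.1 +
      y (e : (Fin n × Fin n) × (Fin n × Fin n)).2.2) -
      (x (e : (Fin n × Fin n) × (Fin n × Fin n)).1.1 +
        y (e : (Fin n × Fin n) × (Fin n × Fin n)).1.2)) ≤ 0 := by
    intro e
    by_cases h0 : g e ≤ 0
    · have := (mem_pat x y _).mp ((hmem e).mpr h0)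
      exact mul_nonpos_of_nonpos_of_nonneg h0 (by linarith)
    · have h1 : ¬ ((e : (Fin n × Fin n) × (Fin n × Fin n)) ∈ pat x y) := fun h' =>
        h0 ((hmem e).mp h')
      rw [mem_pat, not_le] at h1
      push_neg at h0
      exact mul_nonpos_of_nonneg_of_nonpos h0.le (by linarith)
  have hlt : g e₀ * ((x (e₀ : (Fin n × Fin n) × (Fin n × Fin n)).2.1 +
      y (e₀ : (Fin n × Fin n) × (Fin n × Fin n)).2.2) -
      (x (e₀ : (Fin n × Fin n) × (Fin n × Fin n)).1.1 +
        y (e₀ : (Fin n × Fin n) × (Fin n × Fin n)).1.2)) < 0 := by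
    have h1 : ¬ ((e₀ : (Fin n × Fin n) × (Fin n × Fin n)) ∈ pat x y) := fun h' =>
      (not_le.mpr he₀) ((hmem e₀).mp h')
    rw [mem_pat, not_le] at h1
    exact mul_neg_of_pos_of_neg he₀ (by linarith)
  have := Finset.sum_lt_sum (fun e _ => hle e) ⟨e₀, Finset.mem_univ _, hlt⟩
  rw [hsum] at this
  simp at this

lemma sum_choose_le (N d : ℕ) : ∑ k ∈ Finset.Iic d, N.choose k ≤ (N + 1) ^ d := by
  rw [add_pow]
  have : Finset.Iic d = Finset.range (d + 1) := by
    ext k; simp [Nat.lt_succ_iff]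
  rw [this]
  apply Finset.sum_le_sum
  intro k hk
  have hk : k ≤ d := Nat.lt_succ_iff.mp (Finset.mem_range.mp hk)
  calc N.choose k ≤ N ^ k := Nat.choose_le_pow N k
    _ = N ^ k * 1 * 1 := by ring
    _ ≤ N ^ k * 1 ^ (d - k) * d.choose k := by
        rw [one_pow]
        exact Nat.mul_le_mul_left _ (Nat.choose_pos hk)

lemma card_pats (n : ℕ) : (pats n).card ≤ (n ^ 4 + 1) ^ (2 * n) := by
  classical
  have h1 := Finset.card_le_card_shatterer (pats n)
  have h2 := Finset.card_shatterer_le_sum_vcDim (𝒜 := pats n)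
  have hv : (pats n).vcDim ≤ 2 * n := by
    rw [Finset.vcDim]
    apply Finset.sup_le
    intro s hs
    exact shattered_card (Finset.mem_shatterer.mp hs)
  have h3 : ∑ k ∈ Finset.Iic (pats n).vcDim,
      (Fintype.card ((Fin n × Fin n) × (Fin n × Fin n))).choose k ≤
      ∑ k ∈ Finset.Iic (2 * n), (Fintype.card ((Fin n × Fin n) × (Fin n × Fin n))).choose k :=
    Finset.sum_le_sum_of_subset (Finset.Iic_subset_Iic.mpr hv)
  have h4 := sum_choose_le (Fintype.card ((Fin n × Fin n) × (Fin n × Fin n))) (2 * n)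
  have h5 : Fintype.card ((Fin n × Fin n) × (Fin n × Fin n)) = n ^ 4 := by
    simp only [Fintype.card_prod, Fintype.card_fin]; ring
  rw [h5] at h4
  rw [h5] at h2 h3
  omega

/-- every input is sorted by some bijection -/
lemma exists_sort (x y : Fin n → ℝ) : ∃ σ : Fin (n * n) ≃ Fin n × Fin n,
    Monotone fun k => x (σ k).1 + y (σ k).2 := by
  let f : Fin (n * n) → ℝ := fun k =>
    x (finProdFinEquiv.symm k).1 + y (finProdFinEquiv.symm k).2
  refine ⟨(Tuple.sort f).trans finProdFinEquiv.symm, ?_⟩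
  exact Tuple.monotone_sort f

/-- Few circuits without minimum and maximum gates suffice to sort every input. -/
theorem upper (n : ℕ) : ∃ m ≤ (n ^ 4 + 1) ^ (2 * n), ∃ C : Fin m → Circuit n,
    (∀ a, (C a).minMax = 0 ∧ (C a).size = 2 * n + n ^ 2) ∧
    ∀ x y : Fin n → ℝ, ∃ a, (C a).Sorts x y := by
  classical
  have hsort : ∀ S : pats n, ∃ σ : Fin (n * n) ≃ Fin n × Fin n, ∀ x y : Fin n → ℝ,
      (S : Finset _) = pat x y → Monotone fun k => x (σ k).1 + y (σ k).2 := by
    rintro ⟨S, hS⟩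
    obtain ⟨x, y, rfl⟩ : ∃ x y : Fin n → ℝ, S = pat x y := by simpa [pats] using hS
    obtain ⟨σ, hσ⟩ := exists_sort x y
    refine ⟨σ, fun x' y' h k k' hkk' => ?_⟩
    have h1 : (σ k, σ k') ∈ pat x y := (mem_pat _ _ _).mpr (hσ hkk')
    have h : pat x y = pat x' y' := h
    rw [h] at h1
    exact (mem_pat _ _ _).mp h1
  choose σ hσ using hsort
  let e := (pats n).equivFin
  refine ⟨(pats n).card, card_pats n, fun a => listCircuit (σ (e.symm a)), fun a =>
    ⟨listCircuit_minMax _, by show 2 * n + n * n = _; ring⟩, fun x y => ?_⟩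
  have hmem : pat x y ∈ pats n := by
    simp only [pats, Finset.mem_filter, Finset.mem_univ, true_and]
    exact ⟨x, y, rfl⟩
  refine ⟨e ⟨pat x y, hmem⟩, ?_, σ ⟨pat x y, hmem⟩, fun k => ?_⟩
  · intro k k' hkk'
    simp only [listCircuit_out, Equiv.symm_apply_apply]
    exact hσ ⟨pat x y, hmem⟩ x y rfl hkk'
  · rw [listCircuit_out, Equiv.symm_apply_apply]

end

end Pool.Agent.Lib_MP_852c2d_lc
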